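import Pool.Agent.H51.EG.Def

set_option autoImplicit false

/-! `1 - 1 / (2 ^ (2 ^ a) - 1)` is a sum of `2 a` unit fractions. -/

namespace Pool.Agent.H51.EG.T.BETA

open Finset

theorem R_cons {k n : ℕ} {x : ℚ} (hx : R k x) (hn : 0 < n) : R (k + 1) (1 / (n : ℚ) + x) := by
  obtain ⟨m, h1, h2, h3⟩ := hx
  refine ⟨n ::ₘ m, ?_, ?_, ?_⟩
  · rw [Multiset.card_cons]; omega
  · intro i hi
    rcases Multiset.mem_cons.1 hi with rfl | hi
    · exact hn
    · exact h2 i hi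
  · rw [Multiset.map_cons, Multiset.sum_cons, h3]

theorem R_add {k k' : ℕ} {x y : ℚ} (hx : R k x) (hy : R k' y) : R (k + k') (x + y) := by
  obtain ⟨m, h1, h2, h3⟩ := hx
  obtain ⟨m', h1', h2', h3'⟩ := hy
  refine ⟨m + m', ?_, ?_, ?_⟩
  · rw [Multiset.card_add]; omega
  · intro n hn
    rcases Multiset.mem_add.1 hn with h | h
    · exact h2 n h
    · exact h2' n h
  · rw [Multiset.map_add, Multiset.sum_add, h3, h3']

theorem R_half {k : ℕ} {x : ℚ} (h : R k x) : R k (x / 2) := by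
  obtain ⟨s, h1, h2, h3⟩ := h
  refine ⟨s.map (fun n => n * 2), by simpa using h1, ?_, ?_⟩
  · intro n hn
    obtain ⟨a, ha, rfl⟩ := Multiset.mem_map.1 hn
    exact Nat.mul_pos (h2 a ha) two_pos
  · rw [← h3, Multiset.map_map, div_eq_mul_inv, ← Multiset.sum_map_mul_right]
    congr 1
    refine Multiset.map_congr rfl fun a _ => ?_
    simp only [Function.comp]
    push_cast
    rw [one_div, one_div, mul_inv]

theorem geom (a : ℕ) : R a (1 - 1 / 2 ^ a) := by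
  induction a with
  | zero => exact ⟨0, by simp, by simp, by simp⟩
  | succ a ih =>
    have h := R_cons ih (n := 2 ^ (a + 1)) (by positivity)
    have e : (1 : ℚ) / ((2 ^ (a + 1) : ℕ) : ℚ) + (1 - 1 / 2 ^ a) = 1 - 1 / 2 ^ (a + 1) := by
      push_cast
      rw [pow_succ]
      field_simp
      ring
    rwa [e] at h

theorem tower (a : ℕ) : R a (1 / 2 ^ a - 1 / ((2 : ℚ) ^ (2 ^ a) - 1)) := by
  induction a with
  | zero => exact ⟨0, by simp, by simp, by norm_num⟩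
  | succ a ih =>
    have h := R_cons (R_half ih) (n := 2 * (2 ^ (2 ^ a) + 1)) (by positivity)
    have e : (1 : ℚ) / ((2 * (2 ^ (2 ^ a) + 1) : ℕ) : ℚ) +
        (1 / 2 ^ a - 1 / ((2 : ℚ) ^ (2 ^ a) - 1)) / 2 =
        1 / 2 ^ (a + 1) - 1 / ((2 : ℚ) ^ (2 ^ (a + 1)) - 1) := by
      have hY : (2 : ℚ) ≤ (2 : ℚ) ^ (2 ^ a) := by
        calc (2 : ℚ) = 2 ^ 1 := by norm_num
          _ ≤ 2 ^ (2 ^ a) := pow_le_pow_right₀ (by norm_num) (Nat.one_le_two_pow)
      have e1 : (2 : ℚ) ^ (2 ^ (a + 1)) = (2 ^ (2 ^ a)) ^ 2 := by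
        rw [← pow_mul, pow_succ]
      rw [e1]
      push_cast
      generalize (2 : ℚ) ^ (2 ^ a) = Y at hY
      have h1 : Y - 1 ≠ 0 := by linarith
      have h2 : Y + 1 ≠ 0 := by linarith
      have h3 : Y ^ 2 - 1 ≠ 0 := by
        have : Y ^ 2 - 1 = (Y - 1) * (Y + 1) := by ring
        rw [this]; exact mul_ne_zero h1 h2
      rw [pow_succ]
      have e2 : (1 : ℚ) / (Y ^ 2 - 1) = (1 / (Y - 1)) * (1 / (Y + 1)) := by
        rw [show Y ^ 2 - 1 = (Y - 1) * (Y + 1) by ring]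
        field_simp
      rw [e2]
      field_simp
      ring
    rwa [e] at h

theorem main : S_BETA := by
  intro a
  have h := R_add (geom a) (tower a)
  have e : (1 - 1 / 2 ^ a : ℚ) + (1 / 2 ^ a - 1 / ((2 : ℚ) ^ (2 ^ a) - 1)) =
      1 - 1 / ((2 ^ (2 ^ a) - 1 : ℕ) : ℚ) := by
    rw [Nat.cast_sub Nat.one_le_two_pow]
    push_cast
    ring
  rw [e] at h
  rwa [two_mul]

end Pool.Agent.H51.EG.T.BETA
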