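import Mathlib

set_option autoImplicit false

open Finset

namespace Pool.Agent.H51.EG.T.Brun

set_option linter.unusedSectionVars false

variable {ι : Type*} [DecidableEq ι]

/-- elementary symmetric sums -/
noncomputable def E (g : ι → ℝ) (j : ℕ) (P : Finset ι) : ℝ := ∑ D ∈ P.powersetCard j, ∏ q ∈ D, g q

theorem E_zero (g : ι → ℝ) (P : Finset ι) : E g 0 P = 1 := by
  simp [E]

theorem E_insert (g : ι → ℝ) (j : ℕ) (P : Finset ι) (a : ι) (ha : a ∉ P) :
    E g (j + 1) (insert a P) = E g (j + 1) P + g a * E g j P := by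
  unfold E
  rw [powersetCard_succ_insert ha, sum_union, sum_image]
  · congr 1
    rw [mul_sum]
    refine sum_congr rfl fun D hD => ?_
    rw [mem_powersetCard] at hD
    rw [prod_insert (fun h => ha (hD.1 h))]
  · intro D hD D' hD' h
    rw [mem_coe, mem_powersetCard] at hD hD'
    have h1 : (insert a D).erase a = (insert a D').erase a := by rw [h]
    rwa [erase_insert (fun h => ha (hD.1 h)), erase_insert (fun h => ha (hD'.1 h))] at h1
  · rw [disjoint_left]
    intro D hD hD'
    rw [mem_image] at hD'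
    obtain ⟨D', _, rfl⟩ := hD'
    rw [mem_powersetCard] at hD
    exact ha (hD.1 (mem_insert_self a D'))

theorem E_nonneg (g : ι → ℝ) (j : ℕ) (P : Finset ι) (hg : ∀ q ∈ P, 0 ≤ g q) : 0 ≤ E g j P := by
  unfold E
  refine sum_nonneg fun D hD => prod_nonneg fun q hq => hg q ?_
  rw [mem_powersetCard] at hD
  exact hD.1 hq

/-- Bonferroni for products. -/
theorem bonf (g : ι → ℝ) (P : Finset ι) (hg : ∀ q ∈ P, 0 ≤ g q ∧ g q ≤ 1) (m : ℕ) :
    0 ≤ (-1 : ℝ) ^ m * (∏ q ∈ P, (1 - g q) - ∑ j ∈ range m, (-1 : ℝ) ^ j * E g j P) ∧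
    (-1 : ℝ) ^ m * (∏ q ∈ P, (1 - g q) - ∑ j ∈ range m, (-1 : ℝ) ^ j * E g j P) ≤ E g m P := by
  induction P using Finset.induction_on generalizing m with
  | empty =>
    rcases m with _ | m
    · simp [E]
    · have h1 : ∀ j ∈ range (m + 1), (-1 : ℝ) ^ j * E g j (∅ : Finset ι) = if j = 0 then 1 else 0 := by
        intro j _
        rcases j with _ | j
        · simp [E]
        · simp only [E]
          rw [powersetCard_eq_empty.2 (by simp)]
          simp
      rw [sum_congr rfl h1]
      simp [E]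
      rw [powersetCard_eq_empty.2 (by simp)]
      simp
  | insert a P ha ih =>
    have hgP : ∀ q ∈ P, 0 ≤ g q ∧ g q ≤ 1 := fun q hq => hg q (mem_insert_of_mem hq)
    have hga := hg a (mem_insert_self a P)
    rcases m with _ | m
    · simp only [pow_zero, range_zero, sum_empty, sub_zero, one_mul]
      rw [E_zero]
      constructor
      · exact prod_nonneg fun q hq => by linarith [(hg q hq).2]
      · exact prod_le_one (fun q hq => by linarith [(hg q hq).2]) (fun q hq => by linarith [(hg q hq).1])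
    · have h1 := ih hgP (m + 1)
      have h2 := ih hgP m
      have key : (-1 : ℝ) ^ (m + 1) * (∏ q ∈ insert a P, (1 - g q) -
          ∑ j ∈ range (m + 1), (-1 : ℝ) ^ j * E g j (insert a P)) =
          (-1 : ℝ) ^ (m + 1) * (∏ q ∈ P, (1 - g q) - ∑ j ∈ range (m + 1), (-1 : ℝ) ^ j * E g j P) +
          g a * ((-1 : ℝ) ^ m * (∏ q ∈ P, (1 - g q) - ∑ j ∈ range m, (-1 : ℝ) ^ j * E g j P)) := by
        rw [prod_insert ha, sum_range_succ', sum_range_succ']
        have h3 : ∀ j ∈ range m, (-1 : ℝ) ^ (j + 1) * E g (j + 1) (insert a P) =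
            (-1 : ℝ) ^ (j + 1) * E g (j + 1) P - g a * ((-1 : ℝ) ^ j * E g j P) := by
          intro j _
          rw [E_insert g j P a ha]
          ring
        rw [sum_congr rfl h3, sum_sub_distrib, ← mul_sum, E_zero, E_zero]
        ring
      rw [key, E_insert g m P a ha]
      constructor
      · have := mul_nonneg hga.1 h2.1
        linarith [h1.1]
      · have := mul_le_mul_of_nonneg_left h2.2 hga.1
        linarith [h1.2]

theorem E_le_exp (g : ι → ℝ) (P : Finset ι) (hg : ∀ q ∈ P, 0 ≤ g q) (m : ℕ) :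
    E g m P * 3 ^ m ≤ Real.exp (3 * ∑ q ∈ P, g q) := by
  have h1 : E g m P * 3 ^ m = ∑ D ∈ P.powersetCard m, ∏ q ∈ D, (3 * g q) := by
    unfold E
    rw [sum_mul]
    refine sum_congr rfl fun D hD => ?_
    rw [mem_powersetCard] at hD
    rw [prod_mul_distrib, prod_const, hD.2]
    ring
  have h2 : ∑ D ∈ P.powersetCard m, ∏ q ∈ D, (3 * g q) ≤ ∑ D ∈ P.powerset, ∏ q ∈ D, (3 * g q) := by
    apply sum_le_sum_of_subset_of_nonneg
    · intro D hD
      rw [mem_powersetCard] at hD
      exact mem_powerset.2 hD.1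
    · intro D hD _
      refine prod_nonneg fun q hq => ?_
      have := hg q (mem_powerset.1 hD hq)
      linarith
  rw [h1]
  refine h2.trans ?_
  rw [← prod_one_add, mul_sum, Real.exp_sum]
  refine prod_le_prod (fun q hq => ?_) (fun q hq => ?_)
  · have := hg q hq
    linarith
  · have := Real.add_one_le_exp (3 * g q)
    linarith

theorem exp_le_one_sub {x : ℝ} (h0 : 0 ≤ x) (h1 : x ≤ 1 / 2) : Real.exp (-(2 * x)) ≤ 1 - x := by
  have h2 : 1 + 2 * x ≤ Real.exp (2 * x) := by
    have := Real.add_one_le_exp (2 * x)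
    linarith
  have h3 : 1 ≤ (1 - x) * (1 + 2 * x) := by nlinarith
  have h4 : 1 ≤ (1 - x) * Real.exp (2 * x) := by
    have : (1 - x) * (1 + 2 * x) ≤ (1 - x) * Real.exp (2 * x) :=
      mul_le_mul_of_nonneg_left h2 (by linarith)
    linarith
  rw [Real.exp_neg]
  rw [inv_le_iff_one_le_mul₀ (Real.exp_pos _)]
  linarith

theorem exp_le_prod (g : ι → ℝ) (P : Finset ι) (hg : ∀ q ∈ P, 0 ≤ g q ∧ g q ≤ 1 / 2) :
    Real.exp (-(2 * ∑ q ∈ P, g q)) ≤ ∏ q ∈ P, (1 - g q) := by
  rw [mul_sum, ← sum_neg_distrib, Real.exp_sum]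
  exact prod_le_prod (fun q _ => (Real.exp_pos _).le) (fun q hq => exp_le_one_sub (hg q hq).1 (hg q hq).2)

/-! counting in residue classes -/

theorem count_mul (p : ℕ → Prop) [DecidablePred p] (M a : ℕ) (hp : ∀ t, p (t + M) ↔ p t) :
    Nat.count p (M * a) = a * Nat.count p M := by
  induction a with
  | zero => simp
  | succ a ih =>
    rw [Nat.mul_succ, Nat.count_add, ih]
    have h1 : ∀ k, p (M * a + k) ↔ p k := by
      intro k
      clear ih
      induction a with
      | zero => simp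
      | succ a ih2 =>
        rw [show M * (a + 1) + k = (M * a + k) + M by ring, hp]
        exact ih2
    have h2 : Nat.count (fun k => p (M * a + k)) M = Nat.count p M := by
      apply le_antisymm
      · exact Nat.count_mono_left (fun k _ h => (h1 k).1 h)
      · exact Nat.count_mono_left (fun k _ h => (h1 k).2 h)
    rw [h2]; ring

theorem count_approx (p : ℕ → Prop) [DecidablePred p] (M : ℕ) (hM : 0 < M)
    (hp : ∀ t, p (t + M) ↔ p t) (T : ℕ) :
    |(Nat.count p T : ℝ) - T * (Nat.count p M / M)| ≤ Nat.count p M := by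
  have h1 : T = M * (T / M) + T % M := (Nat.div_add_mod T M).symm
  have hper : ∀ k, p (M * (T / M) + k) ↔ p k := by
    intro k
    generalize T / M = a
    induction a with
    | zero => simp
    | succ a ih2 =>
      rw [show M * (a + 1) + k = (M * a + k) + M by ring, hp]
      exact ih2
  have h2 : Nat.count p T = (T / M) * Nat.count p M + Nat.count p (T % M) := by
    conv_lhs => rw [h1]
    rw [Nat.count_add, count_mul p M _ hp]
    congr 1
    apply le_antisymm
    · exact Nat.count_mono_left (fun k _ h => (hper k).1 h)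
    · exact Nat.count_mono_left (fun k _ h => (hper k).2 h)
  have h3 : Nat.count p (T % M) ≤ Nat.count p M := Nat.count_monotone p (Nat.mod_lt _ hM).le
  have hM' : (0:ℝ) < M := by exact_mod_cast hM
  have h4 : (T:ℝ) = M * (T / M : ℕ) + (T % M : ℕ) := by exact_mod_cast h1
  have h5 : (Nat.count p T : ℝ) = (T / M : ℕ) * Nat.count p M + Nat.count p (T % M) := by
    exact_mod_cast h2
  have h6 : (T:ℝ) * (Nat.count p M / M) = (T / M : ℕ) * Nat.count p M +
      (T % M : ℕ) / M * Nat.count p M := by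
    rw [h4]; field_simp
  have h7 : (Nat.count p (T % M) : ℝ) ≤ Nat.count p M := by exact_mod_cast h3
  have h8 : ((T % M : ℕ) : ℝ) / M ≤ 1 := by
    rw [div_le_one hM']
    exact_mod_cast (Nat.mod_lt _ hM).le
  have h9 : (0:ℝ) ≤ ((T % M : ℕ) : ℝ) / M := by positivity
  have h10 : (0:ℝ) ≤ Nat.count p M := by positivity
  have h11 : (0:ℝ) ≤ Nat.count p (T % M) := by positivity
  rw [h5, h6, abs_le]
  constructor
  · nlinarith
  · nlinarith

theorem count_crt (p r : ℕ → Prop) [DecidablePred p] [DecidablePred r] (a b : ℕ)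
    (ha : 0 < a) (hb : 0 < b) (hab : Nat.Coprime a b)
    (hp : ∀ t, p t ↔ p (t % a)) (hr : ∀ t, r t ↔ r (t % b)) :
    Nat.count (fun t => p t ∧ r t) (a * b) = Nat.count p a * Nat.count r b := by
  rw [Nat.count_eq_card_filter_range, Nat.count_eq_card_filter_range,
    Nat.count_eq_card_filter_range, ← card_product]
  apply card_bij (fun t _ => (t % a, t % b))
  · intro t ht
    rw [mem_filter, mem_range] at ht
    rw [mem_product, mem_filter, mem_filter, mem_range, mem_range]
    exact ⟨⟨Nat.mod_lt _ ha, (hp t).1 ht.2.1⟩, ⟨Nat.mod_lt _ hb, (hr t).1 ht.2.2⟩⟩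
  · intro t ht t' ht' h
    rw [mem_filter, mem_range] at ht ht'
    rw [Prod.mk.injEq] at h
    have h1 : t ≡ t' [MOD a * b] := (Nat.modEq_and_modEq_iff_modEq_mul hab).1 ⟨h.1, h.2⟩
    exact Nat.ModEq.eq_of_lt_of_lt h1 ht.1 ht'.1
  · rintro ⟨u, v⟩ huv
    rw [mem_product, mem_filter, mem_filter, mem_range, mem_range] at huv
    obtain ⟨⟨hu, hpu⟩, ⟨hv, hrv⟩⟩ := huv
    have h1 := (Nat.chineseRemainder hab u v).2
    have h2 := Nat.chineseRemainder_lt_mul hab u v ha.ne' hb.ne'
    set t := (Nat.chineseRemainder hab u v : ℕ) with ht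
    have h3 : t % a = u := by
      have := h1.1
      rw [Nat.ModEq, Nat.mod_eq_of_lt hu] at this
      exact this
    have h4 : t % b = v := by
      have := h1.2
      rw [Nat.ModEq, Nat.mod_eq_of_lt hv] at this
      exact this
    refine ⟨t, ?_, ?_⟩
    · rw [mem_filter, mem_range]
      refine ⟨h2, (hp t).2 (by rw [h3]; exact hpu), (hr t).2 (by rw [h4]; exact hrv)⟩
    · rw [h3, h4]

/-- `B q` = bad residues mod `q`. -/
theorem count_all (B : ℕ → Finset ℕ) (D : Finset ℕ) (hpos : ∀ q ∈ D, 0 < q)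
    (hco : (D : Set ℕ).Pairwise Nat.Coprime) (hB : ∀ q ∈ D, B q ⊆ range q) :
    Nat.count (fun t => ∀ q ∈ D, t % q ∈ B q) (∏ q ∈ D, q) = ∏ q ∈ D, (B q).card := by
  classical
  induction D using Finset.induction_on with
  | empty => simp
  | insert a D ha ih =>
    rw [prod_insert ha, prod_insert ha]
    have hpos' : ∀ q ∈ D, 0 < q := fun q hq => hpos q (mem_insert_of_mem hq)
    have hco' : (D : Set ℕ).Pairwise Nat.Coprime :=
      hco.mono (by rw [coe_insert]; exact Set.subset_insert _ _)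
    have hB' : ∀ q ∈ D, B q ⊆ range q := fun q hq => hB q (mem_insert_of_mem hq)
    rw [← ih hpos' hco' hB']
    have h1 : Nat.count (fun t => t % a ∈ B a) a = (B a).card := by
      rw [Nat.count_eq_card_filter_range]
      congr 1
      ext t
      rw [mem_filter, mem_range]
      constructor
      · rintro ⟨h1, h2⟩
        rwa [Nat.mod_eq_of_lt h1] at h2
      · intro h
        have h3 := mem_range.1 (hB a (mem_insert_self a D) h)
        exact ⟨h3, by rwa [Nat.mod_eq_of_lt h3]⟩
    rw [← h1]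
    have hcop : Nat.Coprime a (∏ q ∈ D, q) := by
      apply Nat.Coprime.prod_right
      intro q hq
      apply hco (by simp) (by simp [hq])
      rintro rfl
      exact ha hq
    rw [← count_crt (fun t => t % a ∈ B a) (fun t => ∀ q ∈ D, t % q ∈ B q) a (∏ q ∈ D, q)
      (hpos a (mem_insert_self a D)) (prod_pos hpos') hcop (by simp) ?_]
    · congr 1
      ext t
      simp
    · intro t
      have : ∀ q ∈ D, (t % ∏ q ∈ D, q) % q = t % q := fun q hq =>
        Nat.mod_mod_of_dvd t (dvd_prod_of_mem _ hq)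
      constructor
      · intro h q hq
        rw [this q hq]; exact h q hq
      · intro h q hq
        rw [← this q hq]; exact h q hq

theorem count_all_approx (B : ℕ → Finset ℕ) (D : Finset ℕ) (hpos : ∀ q ∈ D, 0 < q)
    (hco : (D : Set ℕ).Pairwise Nat.Coprime) (hB : ∀ q ∈ D, B q ⊆ range q) (T : ℕ) :
    |(Nat.count (fun t => ∀ q ∈ D, t % q ∈ B q) T : ℝ) - T * ∏ q ∈ D, ((B q).card / q : ℝ)| ≤
      ∏ q ∈ D, ((B q).card : ℝ) := by
  have h1 := count_all B D hpos hco hB
  have h2 := count_approx (fun t => ∀ q ∈ D, t % q ∈ B q) (∏ q ∈ D, q) (prod_pos hpos) (by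
    intro t
    have : ∀ q ∈ D, (t + ∏ q ∈ D, q) % q = t % q := by
      intro q hq
      obtain ⟨c, hc⟩ := dvd_prod_of_mem (fun q : ℕ => q) hq
      rw [hc]
      simp
    constructor
    · intro h q hq
      rw [← this q hq]; exact h q hq
    · intro h q hq
      rw [this q hq]; exact h q hq) T
  rw [h1] at h2
  rw [prod_div_distrib]
  push_cast at h2 ⊢
  exact h2

/-- Brun's pure sieve. -/
theorem brun (B : ℕ → Finset ℕ) (P : Finset ℕ) (hpos : ∀ q ∈ P, 0 < q)
    (hco : (P : Set ℕ).Pairwise Nat.Coprime) (hB : ∀ q ∈ P, B q ⊆ range q) (T k : ℕ) (R : ℝ)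
    (hR : 1 ≤ R) (hBR : ∀ q ∈ P, ((B q).card : ℝ) ≤ R) :
    (T : ℝ) * (∏ q ∈ P, (1 - ((B q).card / q : ℝ)) - E (fun q => ((B q).card / q : ℝ)) (2 * k) P) -
      ∑ j ∈ range (2 * k), (P.card * R) ^ j ≤ Nat.count (fun t => ∀ q ∈ P, t % q ∉ B q) T := by
  classical
  set g : ℕ → ℝ := fun q => ((B q).card / q : ℝ) with hg
  have hg01 : ∀ q ∈ P, 0 ≤ g q ∧ g q ≤ 1 := by
    intro q hq
    have hq0 : (0:ℝ) < q := by exact_mod_cast hpos q hq
    refine ⟨by positivity, ?_⟩
    rw [hg]
    simp only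
    rw [div_le_one hq0]
    have := card_le_card (hB q hq)
    rw [card_range] at this
    exact_mod_cast this
  -- indicator weights
  let h : ℕ → ℕ → ℝ := fun t q => if t % q ∈ B q then 1 else 0
  have hh : ∀ t, ∀ q ∈ P, 0 ≤ h t q ∧ h t q ≤ 1 := by
    intro t q _
    simp only [h]
    split_ifs <;> norm_num
  have h1 : ∀ t, ∑ j ∈ range (2 * k), (-1 : ℝ) ^ j * E (h t) j P ≤ ∏ q ∈ P, (1 - h t q) := by
    intro t
    have := (bonf (h t) P (hh t) (2 * k)).1
    rw [pow_mul] at this
    norm_num at this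
    linarith
  have h2 : (Nat.count (fun t => ∀ q ∈ P, t % q ∉ B q) T : ℝ) = ∑ t ∈ range T, ∏ q ∈ P, (1 - h t q) := by
    rw [Nat.count_eq_card_filter_range, card_filter]
    push_cast
    refine sum_congr rfl fun t _ => ?_
    split_ifs with hc
    · symm
      apply prod_eq_one
      intro q hq
      simp [h, hc q hq]
    · push Not at hc
      obtain ⟨q, hq, hqB⟩ := hc
      symm
      apply prod_eq_zero hq
      simp [h, hqB]
  have h3 : ∀ D ∈ P.powerset, ∑ t ∈ range T, ∏ q ∈ D, h t q =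
      (Nat.count (fun t => ∀ q ∈ D, t % q ∈ B q) T : ℝ) := by
    intro D _
    rw [Nat.count_eq_card_filter_range, card_filter]
    push_cast
    refine sum_congr rfl fun t _ => ?_
    split_ifs with hc
    · apply prod_eq_one
      intro q hq
      simp [h, hc q hq]
    · push Not at hc
      obtain ⟨q, hq, hqB⟩ := hc
      apply prod_eq_zero hq
      simp [h, hqB]
  have h4 : ∀ j, |∑ t ∈ range T, E (h t) j P - T * E g j P| ≤ (P.card * R) ^ j := by
    intro j
    have e1 : ∑ t ∈ range T, E (h t) j P - T * E g j P =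
        ∑ D ∈ P.powersetCard j, ((Nat.count (fun t => ∀ q ∈ D, t % q ∈ B q) T : ℝ) -
          T * ∏ q ∈ D, g q) := by
      unfold E
      rw [sum_comm, sum_sub_distrib, mul_sum]
      congr 1
      refine sum_congr rfl fun D hD => ?_
      rw [mem_powersetCard] at hD
      exact h3 D (mem_powerset.2 hD.1)
    rw [e1]
    refine (abs_sum_le_sum_abs _ _).trans ?_
    have e2 : ∀ D ∈ P.powersetCard j, |(Nat.count (fun t => ∀ q ∈ D, t % q ∈ B q) T : ℝ) -
          T * ∏ q ∈ D, g q| ≤ R ^ j := by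
      intro D hD
      rw [mem_powersetCard] at hD
      refine (count_all_approx B D (fun q hq => hpos q (hD.1 hq))
        (hco.mono (by exact_mod_cast hD.1)) (fun q hq => hB q (hD.1 hq)) T).trans ?_
      rw [← hD.2, ← prod_const]
      exact prod_le_prod (fun q _ => by positivity) (fun q hq => hBR q (hD.1 hq))
    refine (sum_le_card_nsmul _ _ _ e2).trans ?_
    rw [nsmul_eq_mul, card_powersetCard, mul_pow]
    have e3 : (P.card.choose j : ℝ) ≤ (P.card : ℝ) ^ j := by
      exact_mod_cast Nat.choose_le_pow P.card j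
    have : (0:ℝ) ≤ R ^ j := by positivity
    exact mul_le_mul_of_nonneg_right e3 this
  have h5 : ∑ j ∈ range (2 * k), (-1 : ℝ) ^ j * (T * E g j P) - ∑ j ∈ range (2 * k), (P.card * R) ^ j ≤
      ∑ j ∈ range (2 * k), (-1 : ℝ) ^ j * ∑ t ∈ range T, E (h t) j P := by
    rw [← sum_sub_distrib]
    refine sum_le_sum fun j _ => ?_
    have := h4 j
    rw [abs_le] at this
    rcases neg_one_pow_eq_or ℝ j with hj | hj <;> rw [hj] <;> linarith [this.1, this.2]
  have h6 : ∑ j ∈ range (2 * k), (-1 : ℝ) ^ j * ∑ t ∈ range T, E (h t) j P ≤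
      ∑ t ∈ range T, ∏ q ∈ P, (1 - h t q) := by
    calc _ = ∑ t ∈ range T, ∑ j ∈ range (2 * k), (-1 : ℝ) ^ j * E (h t) j P := by
          rw [sum_comm]
          refine sum_congr rfl fun j _ => ?_
          rw [mul_sum]
      _ ≤ _ := sum_le_sum fun t _ => h1 t
  have h7 := (bonf g P hg01 (2 * k)).2
  rw [pow_mul] at h7
  norm_num at h7
  have h8 : ∑ j ∈ range (2 * k), (-1 : ℝ) ^ j * (T * E g j P) =
      T * ∑ j ∈ range (2 * k), (-1 : ℝ) ^ j * E g j P := by
    rw [mul_sum]
    refine sum_congr rfl fun j _ => by ring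
  rw [h2]
  have h9 : (T:ℝ) * (∏ q ∈ P, (1 - g q) - E g (2 * k) P) ≤
      T * ∑ j ∈ range (2 * k), (-1 : ℝ) ^ j * E g j P := by
    apply mul_le_mul_of_nonneg_left _ (by positivity)
    linarith
  linarith

end Pool.Agent.H51.EG.T.Brun
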