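import Pool.Agent.H51.EG.T.TAK

set_option autoImplicit false

/-! Counting solutions: monotonicity of `F` and many solutions from the divisors of `n`. -/

namespace Pool.Agent.H51.EG.T.CNT

open Finset

/-- split the largest denominator -/
def split (S : Finset ℕ) : Finset ℕ :=
  insert (S.sup id * (S.sup id + 1)) (insert (S.sup id + 1) (S.erase (S.sup id)))

theorem sup_mem {S : Finset ℕ} (h : S.Nonempty) : S.sup id ∈ S := by
  obtain ⟨a, ha, h1⟩ := Finset.exists_mem_eq_sup S h id
  rw [h1]; exact ha

theorem le_sup' {S : Finset ℕ} {a : ℕ} (h : a ∈ S) : a ≤ S.sup id := Finset.le_sup (f := id) h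

theorem sup_split {S : Finset ℕ} (hM : 2 ≤ S.sup id) :
    (split S).sup id = S.sup id * (S.sup id + 1) := by
  set M := S.sup id with hMdef
  have hlt : M + 1 ≤ M * (M + 1) := by nlinarith
  refine le_antisymm ?_ (Finset.le_sup (f := id) (by simp [split, hMdef]))
  refine Finset.sup_le fun a ha => ?_
  simp only [split, ← hMdef, Finset.mem_insert, Finset.mem_erase] at ha
  rcases ha with rfl | rfl | ⟨-, ha⟩
  · exact le_rfl
  · exact hlt
  · have : a ≤ M := le_sup' ha
    simp only [id]; omega

theorem mono : S_MONO := by
  intro k hk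
  refine Set.ncard_le_ncard_of_injOn split ?_ ?_ (TAK.fin (k + 1))
  · rintro S ⟨h1, h2, h3⟩
    have hne : S.Nonempty := by rw [← Finset.card_pos]; omega
    set M := S.sup id with hMdef
    have hM : M ∈ S := sup_mem hne
    have hM2 : 2 ≤ M := by
      by_contra hlt
      have hsub : S ⊆ {1} := by
        intro a ha
        have := h2 a ha
        have := le_sup' ha
        rw [Finset.mem_singleton]; omega
      have := Finset.card_le_card hsub
      rw [Finset.card_singleton] at this
      omega
    have hlt : M + 1 < M * (M + 1) := by nlinarith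
    have hn1 : M + 1 ∉ S.erase M := fun h => by
      have := le_sup' (Finset.mem_of_mem_erase h)
      omega
    have hn2 : M * (M + 1) ∉ insert (M + 1) (S.erase M) := fun h => by
      rcases Finset.mem_insert.1 h with h | h
      · omega
      · have := le_sup' (Finset.mem_of_mem_erase h)
        omega
    refine ⟨?_, ?_, ?_⟩
    · simp only [split, ← hMdef]
      rw [Finset.card_insert_of_notMem hn2, Finset.card_insert_of_notMem hn1,
        Finset.card_erase_of_mem hM]
      omega
    · intro n hn
      simp only [split, ← hMdef, Finset.mem_insert, Finset.mem_erase] at hn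
      rcases hn with rfl | rfl | ⟨-, hn⟩
      · positivity
      · omega
      · exact h2 n hn
    · simp only [split, ← hMdef]
      rw [Finset.sum_insert hn2, Finset.sum_insert hn1]
      have := Finset.sum_erase_add S (fun n : ℕ => (1 : ℚ) / n) hM
      rw [h3] at this
      have e : (1 : ℚ) / ((M * (M + 1) : ℕ) : ℚ) + 1 / ((M + 1 : ℕ) : ℚ) = 1 / M := by
        have : (M : ℚ) ≠ 0 := by
          have : M ≠ 0 := by omega
          exact_mod_cast this
        push_cast
        field_simp
        ring
      rw [← add_assoc, e, add_comm]; exact this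
  · rintro S ⟨h1, h2, h3⟩ T ⟨h1', h2', h3'⟩ h
    have key : ∀ S : Finset ℕ, S.card = k → (∀ n ∈ S, 0 < n) → 2 ≤ S.sup id ∧ S =
        insert (S.sup id) ((split S).erase (S.sup id * (S.sup id + 1)) |>.erase (S.sup id + 1)) := by
      intro S h1 h2
      have hne : S.Nonempty := by rw [← Finset.card_pos]; omega
      set M := S.sup id with hMdef
      have hM : M ∈ S := sup_mem hne
      have hM2 : 2 ≤ M := by
        by_contra hlt
        have hsub : S ⊆ {1} := by
          intro a ha
          have := h2 a ha
          have := le_sup' ha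
          rw [Finset.mem_singleton]; omega
        have := Finset.card_le_card hsub
        rw [Finset.card_singleton] at this
        omega
      have hlt : M + 1 < M * (M + 1) := by nlinarith
      have hn1 : M + 1 ∉ S.erase M := fun h => by
        have := le_sup' (Finset.mem_of_mem_erase h)
        omega
      have hn2 : M * (M + 1) ∉ insert (M + 1) (S.erase M) := fun h => by
        rcases Finset.mem_insert.1 h with h | h
        · omega
        · have := le_sup' (Finset.mem_of_mem_erase h)
          omega
      refine ⟨hM2, ?_⟩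
      simp only [split, ← hMdef]
      rw [Finset.erase_insert hn2, Finset.erase_insert hn1, Finset.insert_erase hM]
    obtain ⟨hS2, hS⟩ := key S h1 h2
    obtain ⟨hT2, hT⟩ := key T h1' h2'
    have hsup : S.sup id * (S.sup id + 1) = T.sup id * (T.sup id + 1) := by
      rw [← sup_split hS2, ← sup_split hT2, h]
    have hMM : S.sup id = T.sup id := by
      rcases lt_trichotomy (S.sup id) (T.sup id) with h' | h' | h'
      · nlinarith
      · exact h'
      · nlinarith
    rw [hS, hT, h, hMM]

theorem F_mono {k k' : ℕ} (hk : 2 ≤ k) (h : k ≤ k') : F k ≤ F k' := by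
  induction k', h using Nat.le_induction with
  | base => exact le_rfl
  | succ m hm ih => exact ih.trans (mono m (hk.trans hm))

theorem main : S_CNT := by
  intro K n hn hR k hk
  have hn0 : (0 : ℚ) < n := by exact_mod_cast (by omega : 0 < n)
  obtain ⟨D, hD1, hD2, hD3⟩ := TAK.main K _ hR (by
    have : (0 : ℚ) < 1 / n := by positivity
    linarith)
  refine le_trans ?_ (Nat.add_le_add_right (Nat.add_le_add_right
    (F_mono (k := D.card + 2) (by omega) (by omega)) K) 1)
  classical
  -- the proper divisors
  set P := n.properDivisors with hP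
  have hcard : n.divisors.card = P.card + 1 := by
    rw [← Nat.cons_self_properDivisors (by omega : n ≠ 0), Finset.card_cons]
  -- bad divisors
  set Bd := P.filter (fun a => n + a ∈ D ∨ n + n ^ 2 / a ∈ D) with hBd
  have hprop : ∀ a ∈ P, 0 < a ∧ a < n ∧ ∃ c, n ^ 2 = a * c ∧ n ^ 2 / a = c ∧ n < c := by
    intro a ha
    obtain ⟨⟨b, hb⟩, hlt⟩ := Nat.mem_properDivisors.1 ha
    have ha0 : 0 < a := by
      rcases Nat.eq_zero_or_pos a with h | h
      · rw [h] at hb; omega
      · exact h
    refine ⟨ha0, hlt, b * n, ?_, ?_, ?_⟩
    · rw [pow_two]; nth_rewrite 1 [hb]; ring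
    · rw [pow_two]; nth_rewrite 1 [hb]
      rw [mul_assoc, Nat.mul_div_cancel_left _ ha0]
    · have hb2 : 2 ≤ b := by
        by_contra h
        have : b = 0 ∨ b = 1 := by omega
        rcases this with h | h
        · rw [h] at hb; omega
        · rw [h] at hb; omega
      nlinarith
  have hinj2 : ∀ a ∈ P, ∀ b ∈ P, n ^ 2 / a = n ^ 2 / b → a = b := by
    intro a ha b hb h
    obtain ⟨ha0, _, c, hc, hc', _⟩ := hprop a ha
    obtain ⟨hb0, _, d, hd, hd', _⟩ := hprop b hb
    rw [hc', hd'] at h
    subst h
    have hc0 : 0 < c := by omega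
    exact Nat.eq_of_mul_eq_mul_right hc0 (hc.symm.trans hd)
  have hbad : Bd.card ≤ D.card := by
    refine Finset.card_le_card_of_injOn (fun a => if n + a ∈ D then n + a else n + n ^ 2 / a) ?_ ?_
    · intro a ha
      have ha' := (Finset.mem_filter.1 (Finset.mem_coe.1 ha)).2
      simp only [Finset.mem_coe]
      split_ifs with h
      · exact h
      · exact ha'.resolve_left h
    · intro a ha b hb hab
      have ha' := (Finset.mem_filter.1 (Finset.mem_coe.1 ha)).1
      have hb' := (Finset.mem_filter.1 (Finset.mem_coe.1 hb)).1
      obtain ⟨ha0, ha1, c, hc, hc', hc2⟩ := hprop a ha'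
      obtain ⟨hb0, hb1, d, hd, hd', hd2⟩ := hprop b hb'
      simp only at hab
      split_ifs at hab with h1 h2 h2
      · omega
      · omega
      · omega
      · exact hinj2 a ha' b hb' (by omega)
  -- the good divisors give solutions
  set Gd := P \ Bd with hGd
  have hGcard : P.card ≤ Gd.card + D.card := by
    have hsub : P ⊆ Gd ∪ Bd := by
      intro x hx
      by_cases hxB : x ∈ Bd
      · exact Finset.mem_union_right _ hxB
      · exact Finset.mem_union_left _ (Finset.mem_sdiff.2 ⟨hx, hxB⟩)
    have h1 := Finset.card_le_card hsub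
    have h2 := Finset.card_union_le Gd Bd
    omega
  have hsol : Gd.card ≤ F (D.card + 2) := by
    rw [← Set.ncard_coe_finset]
    refine Set.ncard_le_ncard_of_injOn
      (fun a => insert (n + a) (insert (n + n ^ 2 / a) D)) ?_ ?_ (TAK.fin _)
    · intro a ha
      obtain ⟨haP, hab⟩ := Finset.mem_sdiff.1 (Finset.mem_coe.1 ha)
      have hgood : n + a ∉ D ∧ n + n ^ 2 / a ∉ D := by
        constructor
        · intro h; exact hab (Finset.mem_filter.2 ⟨haP, Or.inl h⟩)
        · intro h; exact hab (Finset.mem_filter.2 ⟨haP, Or.inr h⟩)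
      obtain ⟨ha0, ha1, c, hc, hc', hc2⟩ := hprop a haP
      have hni : n + a ∉ insert (n + n ^ 2 / a) D := by
        intro h
        rcases Finset.mem_insert.1 h with h | h
        · omega
        · exact hgood.1 h
      refine ⟨?_, ?_, ?_⟩
      · rw [Finset.card_insert_of_notMem hni, Finset.card_insert_of_notMem hgood.2]
      · intro i hi
        rcases Finset.mem_insert.1 hi with rfl | hi
        · omega
        · rcases Finset.mem_insert.1 hi with rfl | hi
          · omega
          · exact hD2 i hi
      · rw [Finset.sum_insert hni, Finset.sum_insert hgood.2, hD3, hc']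
        have hcq : (n : ℚ) ^ 2 = a * c := by exact_mod_cast hc
        have ha0' : (0 : ℚ) < a := by exact_mod_cast ha0
        have hc0' : (0 : ℚ) < c := by exact_mod_cast (by omega : 0 < c)
        have e : (1 : ℚ) / ((n + a : ℕ) : ℚ) + 1 / ((n + c : ℕ) : ℚ) = 1 / n := by
          push_cast
          rw [div_add_div _ _ (by positivity) (by positivity), div_eq_div_iff (by positivity)
            (by positivity)]
          nlinarith [hcq]
        rw [← add_assoc, e]; ring
    · intro a ha b hb hab
      obtain ⟨haP, hab'⟩ := Finset.mem_sdiff.1 (Finset.mem_coe.1 ha)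
      obtain ⟨hbP, hbb'⟩ := Finset.mem_sdiff.1 (Finset.mem_coe.1 hb)
      obtain ⟨ha0, ha1, c, hc, hc', hc2⟩ := hprop a haP
      obtain ⟨hb0, hb1, d, hd, hd', hd2⟩ := hprop b hbP
      have hga : n + a ∉ D := fun h => hab' (Finset.mem_filter.2 ⟨haP, Or.inl h⟩)
      have h1 : n + a ∈ insert (n + b) (insert (n + n ^ 2 / b) D) := by
        have : n + a ∈ insert (n + a) (insert (n + n ^ 2 / a) D) := Finset.mem_insert_self _ _
        simpa only [hab] using this
      rcases Finset.mem_insert.1 h1 with h | h
      · omega
      · rcases Finset.mem_insert.1 h with h | h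
        · omega
        · exact absurd h hga
  omega

end Pool.Agent.H51.EG.T.CNT
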