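import Pool.Agent.H51.EG.Def

set_option autoImplicit false

/-! First derivative test for `Δ / n`. -/

namespace Pool.Agent.H51.EG.T.EXP

open Finset

/-- `e(t) = exp (2 π i t)` -/
noncomputable def ee (t : ℝ) : ℂ := Complex.exp (2 * Real.pi * Complex.I * ((t : ℝ) : ℂ))

theorem ee_add (s t : ℝ) : ee (s + t) = ee s * ee t := by
  unfold ee
  rw [← Complex.exp_add]
  congr 1
  push_cast
  ring

theorem ee_eq (t : ℝ) : ee t = Complex.exp (((2 * Real.pi * t : ℝ) : ℂ) * Complex.I) := by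
  unfold ee
  congr 1
  push_cast
  ring

theorem ee_norm (t : ℝ) : ‖ee t‖ = 1 := by
  rw [ee_eq, Complex.norm_exp_ofReal_mul_I]

theorem ee_zero : ee 0 = 1 := by simp [ee]

theorem ee_neg (t : ℝ) : ee (-t) = (starRingEnd ℂ) (ee t) := by
  rw [ee_eq, ee_eq, ← Complex.exp_conj]
  congr 1
  rw [map_mul, Complex.conj_ofReal, Complex.conj_I]
  push_cast
  ring

theorem ee_sub_le (s t : ℝ) : ‖ee s - ee t‖ ≤ 2 * Real.pi * |s - t| := by
  have h1 : ee s - ee t = ee t * (ee (s - t) - 1) := by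
    rw [mul_sub, ← ee_add, mul_one]
    congr 2
    ring
  rw [h1, norm_mul, ee_norm, one_mul]
  have h2 := @Real.norm_exp_I_mul_ofReal_sub_one_le (2 * Real.pi * (s - t))
  rw [ee_eq, mul_comm]
  refine h2.trans (le_of_eq ?_)
  rw [Real.norm_eq_abs, abs_mul, abs_of_pos Real.two_pi_pos]

/-- the antiderivative -/
noncomputable def PP (Δ : ℝ) (x : ℝ) : ℂ :=
  -((x : ℂ) ^ 2 * ee (Δ / x)) / (2 * Real.pi * Complex.I * (Δ : ℂ))

theorem ee_deriv (Δ x : ℝ) (hx : x ≠ 0) :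
    HasDerivAt (fun x : ℝ => ee (Δ / x))
      (ee (Δ / x) * (2 * Real.pi * Complex.I * ((-(Δ / x ^ 2) : ℝ) : ℂ))) x := by
  unfold ee
  have h1 : HasDerivAt (fun x : ℝ => Δ / x) (-(Δ / x ^ 2)) x := by
    have h2 := (hasDerivAt_inv hx).const_mul Δ
    have e1 : (fun y : ℝ => Δ * y⁻¹) = fun y : ℝ => Δ / y := by
      funext y; rw [div_eq_mul_inv]
    rw [e1] at h2
    refine h2.congr_deriv ?_
    field_simp
  exact ((h1.ofReal_comp).const_mul (2 * (Real.pi : ℂ) * Complex.I)).cexp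

theorem PP_deriv (Δ x : ℝ) (hΔ : Δ ≠ 0) (hx : x ≠ 0) :
    HasDerivAt (PP Δ) (ee (Δ / x) - (x : ℂ) * ee (Δ / x) / (Real.pi * Complex.I * (Δ : ℂ))) x := by
  unfold PP
  have h1 : HasDerivAt (fun x : ℝ => (x : ℂ) ^ 2) (2 * (x : ℂ)) x := by
    have h2 := (hasDerivAt_id x).ofReal_comp.pow 2
    refine h2.congr_deriv ?_
    simp
  have h3 := ((h1.mul (ee_deriv Δ x hx)).neg).div_const (2 * Real.pi * Complex.I * (Δ : ℂ))
  refine h3.congr_deriv ?_
  have hπ : (Real.pi : ℂ) ≠ 0 := by exact_mod_cast Real.pi_ne_zero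
  have hI : Complex.I ≠ 0 := Complex.I_ne_zero
  have hΔ' : (Δ : ℂ) ≠ 0 := by exact_mod_cast hΔ
  have hx' : (x : ℂ) ≠ 0 := by exact_mod_cast hx
  push_cast
  field_simp
  ring

theorem step (n : ℕ) (Δ : ℝ) (hn : 1 ≤ n) (hΔ : Δ ≠ 0) :
    ‖PP Δ ((n : ℝ) + 1) - PP Δ n - ee (Δ / n)‖ ≤
      2 * Real.pi * |Δ| / (n : ℝ) ^ 2 + ((n : ℝ) + 1) / (Real.pi * |Δ|) := by
  have hn0 : (0 : ℝ) < n := by exact_mod_cast hn
  have hΔ0 : 0 < |Δ| := abs_pos.mpr hΔ
  have key := norm_image_sub_le_of_norm_deriv_le_segment' (a := (n : ℝ)) (b := (n : ℝ) + 1)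
    (f := fun x : ℝ => PP Δ x - ee (Δ / n) * (x : ℂ))
    (f' := fun x : ℝ => (ee (Δ / x) - (x : ℂ) * ee (Δ / x) / (Real.pi * Complex.I * (Δ : ℂ))) -
      ee (Δ / n) * 1)
    (C := 2 * Real.pi * |Δ| / (n : ℝ) ^ 2 + ((n : ℝ) + 1) / (Real.pi * |Δ|)) ?_ ?_
    ((n : ℝ) + 1) (Set.right_mem_Icc.mpr (by linarith))
  · have e1 : PP Δ ((n : ℝ) + 1) - PP Δ n - ee (Δ / n) =
        (PP Δ ((n : ℝ) + 1) - ee (Δ / n) * (((n : ℝ) + 1 : ℝ) : ℂ)) -
          (PP Δ (n : ℝ) - ee (Δ / n) * ((n : ℝ) : ℂ)) := by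
      push_cast
      ring
    rw [e1]
    refine key.trans (le_of_eq ?_)
    ring
  · intro x hx
    have hx0 : x ≠ 0 := by have := hx.1; linarith
    exact ((PP_deriv Δ x hΔ hx0).sub
      ((hasDerivAt_id x).ofReal_comp.const_mul (ee (Δ / n)))).hasDerivWithinAt
  · intro x hx
    have hx1 := hx.1
    have hx2 := hx.2
    have hx0 : 0 < x := by linarith
    have e1 : (ee (Δ / x) - (x : ℂ) * ee (Δ / x) / (Real.pi * Complex.I * (Δ : ℂ))) -
        ee (Δ / n) * 1 = (ee (Δ / x) - ee (Δ / n)) -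
          (x : ℂ) * ee (Δ / x) / (Real.pi * Complex.I * (Δ : ℂ)) := by ring
    rw [e1]
    refine (norm_sub_le _ _).trans (add_le_add ?_ ?_)
    · refine (ee_sub_le _ _).trans ?_
      have e2 : |Δ / x - Δ / n| = |Δ| * ((x - n) / (x * n)) := by
        have : Δ / x - Δ / n = -(Δ * ((x - n) / (x * n))) := by
          field_simp
          ring
        rw [this, abs_neg, abs_mul, abs_of_nonneg (a := (x - n) / (x * n))]
        exact div_nonneg (by linarith) (by positivity)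
      rw [e2, mul_div_assoc (2 * Real.pi), ← mul_assoc]
      have h1 : (x - n) / (x * n) ≤ 1 / (n : ℝ) ^ 2 := by
        apply div_le_div₀ (by norm_num) (by linarith) (by positivity)
        nlinarith
      calc 2 * Real.pi * |Δ| * ((x - n) / (x * n)) ≤ 2 * Real.pi * |Δ| * (1 / (n : ℝ) ^ 2) := by
            gcongr
        _ = 2 * Real.pi * (|Δ| / (n : ℝ) ^ 2) := by ring
    · rw [norm_div, norm_mul, ee_norm, norm_mul, norm_mul, Complex.norm_I, Complex.norm_real,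
        Complex.norm_real, Complex.norm_real, mul_one, mul_one, Real.norm_of_nonneg hx0.le,
        Real.norm_of_nonneg Real.pi_pos.le, Real.norm_eq_abs]
      have := Real.pi_pos
      gcongr

theorem sum_inv_sq (U V : ℕ) (hU : 1 ≤ U) (hUV : U ≤ V) :
    ∑ n ∈ Ico U V, 1 / (n : ℝ) ^ 2 ≤ 2 / (U : ℝ) - 2 / (V : ℝ) := by
  induction V, hUV using Nat.le_induction with
  | base => simp
  | succ V hV ih =>
    rw [Finset.sum_Ico_succ_top hV]
    have hV0 : (1 : ℝ) ≤ V := by exact_mod_cast (by omega : 1 ≤ V)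
    have h1 : 1 / (V : ℝ) ^ 2 ≤ 2 / (V : ℝ) - 2 / ((V + 1 : ℕ) : ℝ) := by
      push_cast
      rw [div_sub_div _ _ (by positivity) (by positivity), div_le_div_iff₀ (by positivity)
        (by positivity)]
      nlinarith
    linarith

theorem main : S_EXP := by
  intro U V Δ hU hUV hΔ
  have hU0 : (0 : ℝ) < U := by exact_mod_cast (by omega : 0 < U)
  have hV0 : (1 : ℝ) ≤ V := by exact_mod_cast (by omega : 1 ≤ V)
  have hUV' : (U : ℝ) ≤ V := by exact_mod_cast hUV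
  have hΔ0 : 0 < |Δ| := abs_pos.mpr hΔ
  have hπ := Real.pi_pos
  have hπ3 := Real.pi_gt_three
  have hπ4 := Real.pi_le_four
  show ‖∑ n ∈ Ico U V, ee (Δ / n)‖ ≤ 16 * |Δ| / U + 4 * (V : ℝ) ^ 2 / |Δ|
  -- telescoping
  have h1 : ∑ n ∈ Ico U V, ee (Δ / n) = (PP Δ V - PP Δ U) -
      ∑ n ∈ Ico U V, (PP Δ ((n : ℝ) + 1) - PP Δ n - ee (Δ / n)) := by
    rw [Finset.sum_sub_distrib]
    have h2 := Finset.sum_Ico_sub (fun n : ℕ => PP Δ (n : ℝ)) hUV
    push_cast at h2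
    rw [h2]
    ring
  have h3 : ‖∑ n ∈ Ico U V, (PP Δ ((n : ℝ) + 1) - PP Δ n - ee (Δ / n))‖ ≤
      2 * Real.pi * |Δ| * (2 / U) + (V : ℝ) ^ 2 / (Real.pi * |Δ|) := by
    refine (norm_sum_le _ _).trans ?_
    calc ∑ n ∈ Ico U V, ‖PP Δ ((n : ℝ) + 1) - PP Δ n - ee (Δ / n)‖ ≤
        ∑ n ∈ Ico U V, (2 * Real.pi * |Δ| * (1 / (n : ℝ) ^ 2) +
          ((n : ℝ) + 1) / (Real.pi * |Δ|)) := by
          apply Finset.sum_le_sum
          intro n hn
          have := step n Δ (by rw [Finset.mem_Ico] at hn; omega) hΔ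
          refine this.trans (le_of_eq ?_)
          ring
      _ = 2 * Real.pi * |Δ| * ∑ n ∈ Ico U V, 1 / (n : ℝ) ^ 2 +
          (∑ n ∈ Ico U V, ((n : ℝ) + 1)) / (Real.pi * |Δ|) := by
          rw [Finset.sum_add_distrib, Finset.mul_sum, Finset.sum_div]
      _ ≤ 2 * Real.pi * |Δ| * (2 / U) + (V : ℝ) ^ 2 / (Real.pi * |Δ|) := by
          have e1 := sum_inv_sq U V hU hUV
          have e2 : (0 : ℝ) ≤ 2 / V := by positivity
          have e3 : ∑ n ∈ Ico U V, ((n : ℝ) + 1) ≤ (V : ℝ) ^ 2 := by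
            calc ∑ n ∈ Ico U V, ((n : ℝ) + 1) ≤ ∑ n ∈ Ico 0 V, ((n : ℝ) + 1) := by
                  apply Finset.sum_le_sum_of_subset_of_nonneg
                  · exact Finset.Ico_subset_Ico (Nat.zero_le _) le_rfl
                  · intro n _ _
                    positivity
              _ ≤ ∑ n ∈ Ico 0 V, (V : ℝ) := by
                  apply Finset.sum_le_sum
                  intro n hn
                  rw [Finset.mem_Ico] at hn
                  exact_mod_cast hn.2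
              _ = (V : ℝ) ^ 2 := by
                  rw [Finset.sum_const, Nat.card_Ico, nsmul_eq_mul, Nat.sub_zero, sq]
          gcongr
          linarith
  have h4 : ∀ x : ℝ, 0 ≤ x → x ≤ V → ‖PP Δ x‖ ≤ (V : ℝ) ^ 2 / (2 * Real.pi * |Δ|) := by
    intro x hx hxV
    unfold PP
    rw [norm_div, norm_neg, norm_mul, ee_norm, norm_pow, norm_mul, norm_mul, norm_mul,
      Complex.norm_I, Complex.norm_real, Complex.norm_real, Complex.norm_real,
      Real.norm_of_nonneg hx, Real.norm_of_nonneg hπ.le, Real.norm_eq_abs, mul_one, mul_one]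
    have : ‖(2 : ℂ)‖ = 2 := by simp
    rw [this]
    gcongr
  rw [h1]
  refine (norm_sub_le _ _).trans ?_
  have h5 : ‖PP Δ V - PP Δ U‖ ≤ (V : ℝ) ^ 2 / (Real.pi * |Δ|) := by
    refine (norm_sub_le _ _).trans ?_
    have e1 := h4 V (by linarith) le_rfl
    have e2 := h4 U hU0.le hUV'
    have e3 : (V : ℝ) ^ 2 / (Real.pi * |Δ|) = (V : ℝ) ^ 2 / (2 * Real.pi * |Δ|) +
        (V : ℝ) ^ 2 / (2 * Real.pi * |Δ|) := by
      field_simp
      ring
    rw [e3]
    linarith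
  refine (add_le_add h5 h3).trans ?_
  have h6 : 2 * Real.pi * |Δ| * (2 / U) ≤ 16 * |Δ| / U := by
    have : 2 * Real.pi * |Δ| * (2 / U) = (4 * Real.pi) * (|Δ| / U) := by ring
    rw [this, mul_div_assoc]
    gcongr
    linarith
  have h7 : (V : ℝ) ^ 2 / (Real.pi * |Δ|) ≤ (V : ℝ) ^ 2 / |Δ| := by
    apply div_le_div_of_nonneg_left (by positivity) hΔ0
    nlinarith
  have h8 : (0 : ℝ) ≤ (V : ℝ) ^ 2 / |Δ| := by positivity
  have h9 : 4 * (V : ℝ) ^ 2 / |Δ| = 4 * ((V : ℝ) ^ 2 / |Δ|) := by ring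
  rw [h9]
  linarith

end Pool.Agent.H51.EG.T.EXP
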