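import Pool.Agent.H51.EG.T.EXP

set_option autoImplicit false

/-! Fejer kernel. -/

namespace Pool.Agent.H51.EG.T.FEJ

open Finset Pool.Agent.H51.EG.T.EXP

theorem ee_nat_mul (h : ℕ) (t : ℝ) : ee (h * t) = ee t ^ h := by
  induction h with
  | zero => simp [ee_zero]
  | succ h ih =>
    rw [pow_succ, ← ih, ← ee_add]
    congr 1
    push_cast
    ring

theorem ee_int (n : ℤ) : ee (n : ℝ) = 1 := by
  unfold ee
  rw [show (2 * (Real.pi : ℂ) * Complex.I * (((n : ℤ) : ℝ) : ℂ)) =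
    (n : ℂ) * (2 * Real.pi * Complex.I) by push_cast; ring]
  exact Complex.exp_int_mul_two_pi_mul_I n

/-- `|e(x) - 1| ≥ 2 δ` if `x` has distance at least `δ / 2` from the integers -/
theorem ee_sub_one_ge (x δ : ℝ) (hδ : 0 < δ) (hδ1 : δ ≤ 1) (h1 : δ / 2 ≤ x)
    (h2 : x ≤ 1 - δ / 2) : 2 * δ ≤ ‖ee x - 1‖ := by
  have e1 : ‖ee x - 1‖ = 2 * |Real.sin (Real.pi * x)| := by
    rw [ee_eq, mul_comm]
    have := Complex.norm_exp_I_mul_ofReal_sub_one (2 * Real.pi * x)
    rw [this]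
    rw [norm_mul, Real.norm_eq_abs, Real.norm_eq_abs, abs_of_pos (by norm_num : (0 : ℝ) < 2)]
    congr 3
    ring
  rw [e1]
  have hπ := Real.pi_pos
  have key : ∀ y : ℝ, δ / 2 ≤ y → y ≤ 1 / 2 → δ ≤ Real.sin (Real.pi * y) := by
    intro y hy1 hy2
    have h3 := Real.mul_le_sin (x := Real.pi * y) (mul_nonneg hπ.le (by linarith)) (by nlinarith)
    have h4 : 2 / Real.pi * (Real.pi * y) = 2 * y := by field_simp
    rw [h4] at h3
    linarith
  have h5 : δ ≤ Real.sin (Real.pi * x) := by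
    rcases le_total x (1 / 2) with h | h
    · exact key x h1 h
    · have h6 := key (1 - x) (by linarith) (by linarith)
      have h7 : Real.pi * (1 - x) = Real.pi - Real.pi * x := by ring
      rwa [h7, Real.sin_pi_sub] at h6
  rw [abs_of_nonneg (by linarith)]
  linarith

theorem geo (x δ : ℝ) (H : ℕ) (hδ : 0 < δ) (h : 2 * δ ≤ ‖ee x - 1‖) :
    ‖∑ h ∈ range H, ee (h * x)‖ ≤ 1 / δ := by
  have h0 : ee x ≠ 1 := by
    intro h0
    rw [h0, sub_self, norm_zero] at h
    linarith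
  have e1 : ∑ h ∈ range H, ee (h * x) = (ee x ^ H - 1) / (ee x - 1) := by
    rw [← geom_sum_eq h0 H]
    exact Finset.sum_congr rfl fun h _ => ee_nat_mul h x
  rw [e1, norm_div]
  have h1 : ‖ee x ^ H - 1‖ ≤ 2 := by
    refine (norm_sub_le _ _).trans ?_
    rw [norm_pow, ee_norm, one_pow, norm_one]
    norm_num
  rw [div_le_div_iff₀ (by linarith) hδ]
  nlinarith

theorem main : S_FEJ := by
  intro ι J θ δ M H hδ hδ1 hM hfr hsum
  classical
  -- the shifted points
  obtain ⟨x, hx⟩ : ∃ x : ι → ℝ, ∀ j, x j = θ j + δ / 2 := ⟨_, fun j => rfl⟩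
  have hgeo : ∀ j ∈ J, ‖∑ h ∈ range H, ee (h * x j)‖ ≤ 1 / δ := by
    intro j hj
    apply geo _ _ _ hδ
    have h1 : ee (x j) = ee (Int.fract (θ j) + δ / 2) := by
      have h2 : x j = (Int.fract (θ j) + δ / 2) + (⌊θ j⌋ : ℝ) := by
        rw [hx]
        have := Int.fract_add_floor (θ j)
        linarith
      rw [h2, ee_add, ee_int, mul_one]
    rw [h1]
    apply ee_sub_one_ge _ _ hδ hδ1
    · have := Int.fract_nonneg (θ j)
      linarith
    · have := hfr j hj
      linarith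
  have hA : ∑ j ∈ J, ‖∑ h ∈ range H, ee (h * x j)‖ ^ 2 ≤ J.card / δ ^ 2 := by
    calc ∑ j ∈ J, ‖∑ h ∈ range H, ee (h * x j)‖ ^ 2 ≤ ∑ j ∈ J, (1 / δ) ^ 2 := by
          apply Finset.sum_le_sum
          intro j hj
          exact pow_le_pow_left₀ (norm_nonneg _) (hgeo j hj) 2
      _ = J.card / δ ^ 2 := by
          rw [Finset.sum_const, nsmul_eq_mul]
          ring
  -- expansion of the square
  have hB : ∀ j, ((‖∑ h ∈ range H, ee (h * x j)‖ ^ 2 : ℝ) : ℂ) =
      ∑ h ∈ range H, ∑ h' ∈ range H, ee (((h : ℝ) - h') * x j) := by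
    intro j
    rw [Complex.ofReal_pow, ← Complex.mul_conj', map_sum, Finset.sum_mul_sum]
    apply Finset.sum_congr rfl
    intro h _
    apply Finset.sum_congr rfl
    intro h' _
    rw [← ee_neg, ← ee_add]
    congr 1
    ring
  have hC : ((∑ j ∈ J, ‖∑ h ∈ range H, ee (h * x j)‖ ^ 2 : ℝ) : ℂ) =
      ∑ h ∈ range H, ∑ h' ∈ range H, ∑ j ∈ J, ee (((h : ℝ) - h') * x j) := by
    rw [Complex.ofReal_sum, Finset.sum_congr rfl fun j _ => hB j, Finset.sum_comm]
    apply Finset.sum_congr rfl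
    intro h _
    rw [Finset.sum_comm]
  -- the terms off the diagonal
  have hpos : ∀ h : ℕ, 1 ≤ h → h < H → ‖∑ j ∈ J, ee (h * x j)‖ ≤ M := by
    intro h h1 h2
    have e1 : ∑ j ∈ J, ee (h * x j) = ee (h * (δ / 2)) * ∑ j ∈ J, ee (h * θ j) := by
      rw [Finset.mul_sum]
      apply Finset.sum_congr rfl
      intro j _
      rw [← ee_add, hx]
      congr 1
      ring
    rw [e1, norm_mul, ee_norm, one_mul]
    exact hsum h h1 h2
  have hoff : ∀ h ∈ range H, ∀ h' ∈ range H, h ≠ h' →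
      ‖∑ j ∈ J, ee (((h : ℝ) - h') * x j)‖ ≤ M := by
    intro h hh h' hh' hne
    rw [Finset.mem_range] at hh hh'
    rcases lt_or_gt_of_ne hne with hlt | hlt
    · have e1 : ∑ j ∈ J, ee (((h : ℝ) - h') * x j) =
          (starRingEnd ℂ) (∑ j ∈ J, ee (((h' - h : ℕ) : ℝ) * x j)) := by
        rw [map_sum]
        apply Finset.sum_congr rfl
        intro j _
        rw [← ee_neg]
        congr 1
        rw [Nat.cast_sub hlt.le]
        ring
      rw [e1, Complex.norm_conj]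
      exact hpos _ (by omega) (by omega)
    · have e1 : ∑ j ∈ J, ee (((h : ℝ) - h') * x j) =
          ∑ j ∈ J, ee (((h - h' : ℕ) : ℝ) * x j) := by
        apply Finset.sum_congr rfl
        intro j _
        rw [Nat.cast_sub hlt.le]
      rw [e1]
      exact hpos _ (by omega) (by omega)
  have hD : ‖((∑ j ∈ J, ‖∑ h ∈ range H, ee (h * x j)‖ ^ 2 : ℝ) : ℂ) - (H : ℂ) * J.card‖ ≤
      (H : ℝ) ^ 2 * M := by
    have e1 : ((∑ j ∈ J, ‖∑ h ∈ range H, ee (h * x j)‖ ^ 2 : ℝ) : ℂ) - (H : ℂ) * J.card =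
        ∑ h ∈ range H, ∑ h' ∈ range H,
          (if h = h' then 0 else ∑ j ∈ J, ee (((h : ℝ) - h') * x j)) := by
      rw [hC, sub_eq_iff_eq_add]
      have e2 : (H : ℂ) * J.card = ∑ h ∈ range H, ∑ h' ∈ range H,
          (if h = h' then (J.card : ℂ) else 0) := by
        have : ∀ h ∈ range H, ∑ h' ∈ range H, (if h = h' then (J.card : ℂ) else 0) = J.card := by
          intro h hh
          rw [Finset.sum_ite_eq, if_pos hh]
        rw [Finset.sum_congr rfl this, Finset.sum_const, Finset.card_range, nsmul_eq_mul]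
      rw [e2, ← Finset.sum_add_distrib]
      apply Finset.sum_congr rfl
      intro h _
      rw [← Finset.sum_add_distrib]
      apply Finset.sum_congr rfl
      intro h' _
      by_cases hh : h = h'
      · subst hh
        simp [ee_zero]
      · simp [hh]
    rw [e1]
    calc ‖∑ h ∈ range H, ∑ h' ∈ range H,
          (if h = h' then 0 else ∑ j ∈ J, ee (((h : ℝ) - h') * x j))‖ ≤
        ∑ h ∈ range H, ∑ h' ∈ range H, M := by
          refine norm_sum_le_of_le _ fun h hh => norm_sum_le_of_le _ fun h' hh' => ?_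
          by_cases he : h = h'
          · rw [if_pos he, norm_zero]; exact hM
          · rw [if_neg he]; exact hoff h hh h' hh' he
      _ = (H : ℝ) ^ 2 * M := by
          simp only [Finset.sum_const, Finset.card_range, nsmul_eq_mul]
          ring
  have hE : |(∑ j ∈ J, ‖∑ h ∈ range H, ee (h * x j)‖ ^ 2) - (H : ℝ) * J.card| ≤
      (H : ℝ) ^ 2 * M := by
    have e1 : ((∑ j ∈ J, ‖∑ h ∈ range H, ee (h * x j)‖ ^ 2 : ℝ) : ℂ) - (H : ℂ) * J.card =
      (((∑ j ∈ J, ‖∑ h ∈ range H, ee (h * x j)‖ ^ 2) - (H : ℝ) * J.card : ℝ) : ℂ) := by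
      push_cast
      ring
    rw [e1, Complex.norm_real] at hD
    exact hD
  have := (abs_le.mp hE).1
  linarith

end Pool.Agent.H51.EG.T.FEJ
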