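import Pool.Agent.H51.EG.Def
import Pool.Agent.H51.EG.T.Brun

set_option autoImplicit false

/-! Even numbers are sums of two rough numbers in many ways (Brun's pure sieve). -/

namespace Pool.Agent.H51.EG.T.REP

open Finset

/-- primes up to `2 ^ z` -/
def PP (z : ℕ) : Finset ℕ := (range (2 ^ z + 1)).filter Nat.Prime

/-- primes in a dyadic block -/
def BL (j : ℕ) : Finset ℕ := (Ioc (2 ^ j) (2 ^ (j + 1))).filter Nat.Prime

theorem BL_card (j : ℕ) : j * (BL j).card ≤ 2 ^ (j + 2) := by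
  have h1 : (2 ^ j) ^ (BL j).card ≤ ∏ p ∈ BL j, p := by
    rw [← Finset.prod_const]
    apply Finset.prod_le_prod'
    intro p hp
    have := (Finset.mem_filter.mp hp).1
    rw [Finset.mem_Ioc] at this
    exact this.1.le
  have h2 : ∏ p ∈ BL j, p ≤ primorial (2 ^ (j + 1)) := by
    unfold primorial
    apply Finset.prod_le_prod_of_subset_of_one_le'
    · intro p hp
      obtain ⟨h3, h4⟩ := Finset.mem_filter.mp hp
      rw [Finset.mem_Ioc] at h3
      rw [Finset.mem_filter, Finset.mem_range]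
      exact ⟨Nat.lt_succ_of_le h3.2, h4⟩
    · intro p hp _
      exact (Finset.mem_filter.mp hp).2.one_le
  have h3 := primorial_le_four_pow (2 ^ (j + 1))
  have h4 : 2 ^ (j * (BL j).card) ≤ 2 ^ (2 ^ (j + 2)) := by
    calc 2 ^ (j * (BL j).card) = (2 ^ j) ^ (BL j).card := by rw [pow_mul]
      _ ≤ 4 ^ (2 ^ (j + 1)) := h1.trans (h2.trans h3)
      _ = 2 ^ (2 ^ (j + 2)) := by
        rw [show (4 : ℕ) = 2 ^ 2 by norm_num, ← pow_mul]
        congr 1
        ring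
  exact (Nat.pow_le_pow_iff_right (by norm_num)).mp h4

theorem PP_succ (z : ℕ) : PP (z + 1) ⊆ PP z ∪ BL z := by
  intro p hp
  obtain ⟨h1, h2⟩ := Finset.mem_filter.mp hp
  rw [Finset.mem_range] at h1
  rw [Finset.mem_union]
  by_cases h : p ≤ 2 ^ z
  · left
    exact Finset.mem_filter.mpr ⟨Finset.mem_range.mpr (by omega), h2⟩
  · right
    exact Finset.mem_filter.mpr ⟨Finset.mem_Ioc.mpr (by omega), h2⟩

theorem SP (m : ℕ) : ∑ p ∈ PP (m + 1), 1 / (p : ℝ) ≤ 1 / 2 + 4 * (harmonic m : ℝ) := by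
  induction m with
  | zero =>
    have h1 : PP (0 + 1) = {2} := by decide
    rw [h1]
    simp
  | succ m ih =>
    have h1 : ∑ p ∈ PP (m + 1 + 1), 1 / (p : ℝ) ≤ ∑ p ∈ PP (m + 1), 1 / (p : ℝ) +
        ∑ p ∈ BL (m + 1), 1 / (p : ℝ) := by
      have h2 := Finset.sum_union_inter (s₁ := PP (m + 1)) (s₂ := BL (m + 1))
        (f := fun p : ℕ => 1 / (p : ℝ))
      have h3 : ∑ p ∈ PP (m + 1 + 1), 1 / (p : ℝ) ≤ ∑ p ∈ PP (m + 1) ∪ BL (m + 1), 1 / (p : ℝ) :=
        Finset.sum_le_sum_of_subset_of_nonneg (PP_succ (m + 1)) fun _ _ _ => by positivity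
      have h4 : 0 ≤ ∑ p ∈ PP (m + 1) ∩ BL (m + 1), 1 / (p : ℝ) :=
        Finset.sum_nonneg fun _ _ => by positivity
      linarith
    have h5 : ∑ p ∈ BL (m + 1), 1 / (p : ℝ) ≤ 4 * ((m + 1 : ℕ) : ℝ)⁻¹ := by
      calc ∑ p ∈ BL (m + 1), 1 / (p : ℝ) ≤ ∑ p ∈ BL (m + 1), 1 / (2 : ℝ) ^ (m + 1) := by
            apply Finset.sum_le_sum
            intro p hp
            have h6 := (Finset.mem_filter.mp hp).1
            rw [Finset.mem_Ioc] at h6
            have h7 : (2 : ℝ) ^ (m + 1) ≤ p := by exact_mod_cast h6.1.le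
            exact one_div_le_one_div_of_le (by positivity) h7
        _ = (BL (m + 1)).card / (2 : ℝ) ^ (m + 1) := by
            rw [Finset.sum_const, nsmul_eq_mul]
            ring
        _ ≤ 4 * ((m + 1 : ℕ) : ℝ)⁻¹ := by
            have h8 : ((m + 1 : ℕ) : ℝ) * ((BL (m + 1)).card : ℝ) ≤ 2 ^ (m + 1 + 2) := by
              exact_mod_cast BL_card (m + 1)
            have h9 : (0 : ℝ) < ((m + 1 : ℕ) : ℝ) := by positivity
            rw [div_le_iff₀ (by positivity), ← div_eq_mul_inv, div_mul_eq_mul_div,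
              le_div_iff₀ h9]
            rw [pow_add (2 : ℝ) (m + 1) 2] at h8
            linarith
    rw [harmonic_succ]
    push_cast at h5 ⊢
    linarith

theorem SPa (a z0 : ℕ) (hz : 1 ≤ z0) (hza : z0 ≤ 2 ^ a) :
    ∑ p ∈ PP z0, 1 / (p : ℝ) ≤ 3 * a + 9 / 2 := by
  obtain ⟨m, rfl⟩ : ∃ m, z0 = m + 1 := ⟨z0 - 1, by omega⟩
  refine (SP m).trans ?_
  have h1 := harmonic_le_one_add_log m
  have h2 : Real.log m ≤ a * Real.log 2 := by
    rcases Nat.eq_zero_or_pos m with rfl | hm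
    · simp only [Nat.cast_zero, Real.log_zero]
      positivity
    · rw [← Real.log_pow]
      apply Real.log_le_log (by exact_mod_cast hm)
      exact_mod_cast (by omega : m ≤ 2 ^ a)
  have h3 := Real.log_two_lt_d9
  have h4 : (a : ℝ) * Real.log 2 ≤ a * (3 / 4) := by
    apply mul_le_mul_of_nonneg_left _ (Nat.cast_nonneg _)
    linarith
  linarith

theorem exp_two_le : Real.exp 2 ≤ 8 := by
  have h1 := Real.exp_one_lt_d9
  have h2 : Real.exp 2 = Real.exp 1 * Real.exp 1 := by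
    rw [← Real.exp_add]
    norm_num
  rw [h2]
  have h3 := Real.exp_pos 1
  nlinarith

theorem exp_up (m : ℕ) : Real.exp (2 * m) ≤ 8 ^ m := by
  rw [mul_comm, Real.exp_nat_mul]
  exact pow_le_pow_left₀ (Real.exp_pos 2).le exp_two_le m

theorem geo_le (x : ℝ) (X : ℝ) (n : ℕ) (hx0 : 0 ≤ x) (hx : x ≤ X) (hX : 2 ≤ X) :
    ∑ j ∈ range n, x ^ j ≤ X ^ n := by
  have h1 : ∑ j ∈ range n, x ^ j ≤ ∑ j ∈ range n, X ^ j :=
    Finset.sum_le_sum fun j _ => pow_le_pow_left₀ hx0 hx j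
  refine h1.trans ?_
  clear h1
  induction n with
  | zero => simp
  | succ n ih =>
    rw [Finset.sum_range_succ]
    have h2 : 0 < X ^ n := by positivity
    calc ∑ j ∈ range n, X ^ j + X ^ n ≤ X ^ n + X ^ n := by linarith
      _ = 2 * X ^ n := by ring
      _ ≤ X * X ^ n := by gcongr
      _ = X ^ (n + 1) := by ring

/-- the bad residues -/
def Bq (c n q : ℕ) : Finset ℕ :=
  (range q).filter (fun i => (c + i) % q = 0 ∨ (c + i) % q = n % q)

theorem res_card (c r q : ℕ) : ((range q).filter (fun i => (c + i) % q = r)).card ≤ 1 := by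
  rw [Finset.card_le_one]
  intro i hi j hj
  rw [Finset.mem_filter, Finset.mem_range] at hi hj
  have h1 : c + i ≡ c + j [MOD q] := hi.2.trans hj.2.symm
  have h2 : i ≡ j [MOD q] := Nat.ModEq.add_left_cancel' c h1
  exact Nat.ModEq.eq_of_lt_of_lt h2 hi.1 hj.1

theorem Bq_card (c n q : ℕ) : (Bq c n q).card ≤ 2 := by
  unfold Bq
  rw [Finset.filter_or]
  refine (Finset.card_union_le _ _).trans ?_
  have h1 := res_card c 0 q
  have h2 := res_card c (n % q) q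
  omega

theorem Bq_card2 (c n : ℕ) (hn : 2 ∣ n) : (Bq c n 2).card ≤ 1 := by
  unfold Bq
  have h0 : n % 2 = 0 := Nat.mod_eq_zero_of_dvd hn
  rw [h0]
  simp only [or_self]
  exact res_card c 0 2

theorem Bq_mem (c n q i : ℕ) (hq : 0 < q) :
    i % q ∈ Bq c n q ↔ ((c + i) % q = 0 ∨ (c + i) % q = n % q) := by
  unfold Bq
  rw [Finset.mem_filter, Finset.mem_range, Nat.add_mod_mod]
  exact and_iff_right (Nat.mod_lt _ hq)

/-- product over all primes -/
theorem prod_low (z0 : ℕ) (hz : 2 ≤ z0) (g : ℕ → ℝ) (S : ℝ)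
    (h0 : ∀ q ∈ PP z0, 0 ≤ g q) (h2 : g 2 ≤ 1 / 2) (hg : ∀ q ∈ PP z0, g q ≤ 2 * (1 / (q : ℝ)))
    (hS : ∑ q ∈ PP z0, 1 / (q : ℝ) ≤ S) :
    1 / 6 * Real.exp (-(4 * S)) ≤ ∏ q ∈ PP z0, (1 - g q) := by
  have h4 : 4 ≤ 2 ^ z0 := by
    calc 4 = 2 ^ 2 := by norm_num
      _ ≤ 2 ^ z0 := Nat.pow_le_pow_right (by norm_num) hz
  have m2 : 2 ∈ PP z0 := Finset.mem_filter.mpr ⟨Finset.mem_range.mpr (by omega), Nat.prime_two⟩
  have m3 : 3 ∈ (PP z0).erase 2 := Finset.mem_erase.mpr ⟨by norm_num,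
    Finset.mem_filter.mpr ⟨Finset.mem_range.mpr (by omega), Nat.prime_three⟩⟩
  rw [← Finset.mul_prod_erase _ _ m2, ← Finset.mul_prod_erase _ _ m3]
  have hsub : ((PP z0).erase 2).erase 3 ⊆ PP z0 :=
    (Finset.erase_subset _ _).trans (Finset.erase_subset _ _)
  have h5 : ∀ q ∈ ((PP z0).erase 2).erase 3, 0 ≤ g q ∧ g q ≤ 1 / 2 := by
    intro q hq
    have hqP := hsub hq
    refine ⟨h0 q hqP, ?_⟩
    have h6 : 4 ≤ q := by
      have h7 := (Finset.mem_filter.mp hqP).2.two_le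
      have h8 := Finset.mem_erase.mp hq
      have h9 := Finset.mem_erase.mp h8.2
      omega
    have h7 : (4 : ℝ) ≤ q := by exact_mod_cast h6
    have h8 : 1 / (q : ℝ) ≤ 1 / 4 := one_div_le_one_div_of_le (by norm_num) h7
    have := hg q hqP
    linarith
  have h6 := Pool.Agent.H51.EG.T.Brun.exp_le_prod g _ h5
  have h7 : ∑ q ∈ ((PP z0).erase 2).erase 3, g q ≤ 2 * S := by
    calc ∑ q ∈ ((PP z0).erase 2).erase 3, g q ≤ ∑ q ∈ PP z0, g q :=
          Finset.sum_le_sum_of_subset_of_nonneg hsub fun q hq _ => h0 q hq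
      _ ≤ ∑ q ∈ PP z0, 2 * (1 / (q : ℝ)) := Finset.sum_le_sum hg
      _ = 2 * ∑ q ∈ PP z0, 1 / (q : ℝ) := by rw [Finset.mul_sum]
      _ ≤ 2 * S := by linarith
  have h8 : Real.exp (-(4 * S)) ≤ ∏ q ∈ ((PP z0).erase 2).erase 3, (1 - g q) := by
    refine le_trans (Real.exp_le_exp.mpr ?_) h6
    linarith
  have h9 : g 3 ≤ 2 / 3 := by
    have := hg 3 (Finset.mem_erase.mp m3).2
    push_cast at this
    linarith
  have h10 := Real.exp_pos (-(4 * S))
  calc 1 / 6 * Real.exp (-(4 * S)) = (1 / 2) * ((1 / 3) * Real.exp (-(4 * S))) := by ring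
    _ ≤ (1 - g 2) * ((1 - g 3) * ∏ q ∈ ((PP z0).erase 2).erase 3, (1 - g q)) := by
        apply mul_le_mul (by linarith) _ (by positivity) (by linarith)
        apply mul_le_mul (by linarith) h8 h10.le (by linarith)

theorem main : S_REP := by
  intro a z0 n ha hz0 hza hn1 hn2 hn K hK
  classical
  obtain ⟨y, hy⟩ : ∃ y, y = 128 * a * z0 := ⟨_, rfl⟩
  rw [← hy] at hn1 hn2 hK ⊢
  have hy512 : 512 ≤ y := by rw [hy]; nlinarith
  obtain ⟨c, hc⟩ : ∃ c, c = 2 ^ (y - 3) + 1 := ⟨_, rfl⟩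
  obtain ⟨k, hk⟩ : ∃ k, k = 15 * a + 25 := ⟨_, rfl⟩
  have hPpos : ∀ q ∈ PP z0, 0 < q := fun q hq => (Finset.mem_filter.mp hq).2.pos
  have hbrun := Pool.Agent.H51.EG.T.Brun.brun (Bq c n) (PP z0) hPpos
    (fun p hp q hq hpq => (Nat.coprime_primes (Finset.mem_filter.mp hp).2
      (Finset.mem_filter.mp hq).2).mpr hpq)
    (fun q _ => Finset.filter_subset _ _) (2 ^ (y - 2)) k 2 (by norm_num)
    (fun q _ => by exact_mod_cast Bq_card c n q)
  obtain ⟨g, hg⟩ : ∃ g : ℕ → ℝ, g = fun q => ((Bq c n q).card / q : ℝ) := ⟨_, rfl⟩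
  have hS := SPa a z0 (by omega) hza
  obtain ⟨S, hSd⟩ : ∃ S : ℝ, S = 3 * a + 9 / 2 := ⟨_, rfl⟩
  rw [← hSd] at hS
  have hg0 : ∀ q ∈ PP z0, 0 ≤ g q := by
    intro q _
    rw [hg]
    positivity
  have hg2 : ∀ q ∈ PP z0, g q ≤ 2 * (1 / (q : ℝ)) := by
    intro q hq
    rw [hg]
    have h1 : ((Bq c n q).card : ℝ) ≤ 2 := by exact_mod_cast Bq_card c n q
    have h2 : (0 : ℝ) < q := by exact_mod_cast hPpos q hq
    show ((Bq c n q).card / q : ℝ) ≤ 2 * (1 / (q : ℝ))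
    rw [div_le_iff₀ h2]
    field_simp
    exact h1
  have hg22 : g 2 ≤ 1 / 2 := by
    rw [hg]
    have h1 : ((Bq c n 2).card : ℝ) ≤ 1 := by exact_mod_cast Bq_card2 c n hn
    show ((Bq c n 2).card / ((2 : ℕ) : ℝ) : ℝ) ≤ 1 / 2
    push_cast
    linarith
  have hprod := prod_low z0 hz0 g S hg0 hg22 hg2 hS
  have hEE := Pool.Agent.H51.EG.T.Brun.E_le_exp g (PP z0) hg0 (2 * k)
  have hEn := Pool.Agent.H51.EG.T.Brun.E_nonneg g (2 * k) (PP z0) hg0
  obtain ⟨EE, hEEd⟩ : ∃ EE : ℝ, EE = Pool.Agent.H51.EG.T.Brun.E g (2 * k) (PP z0) := ⟨_, rfl⟩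
  rw [← hEEd] at hEE hEn
  have hbrun' : ((2 ^ (y - 2) : ℕ) : ℝ) * (∏ q ∈ PP z0, (1 - g q) - EE) -
      ∑ j ∈ range (2 * k), (((PP z0).card : ℝ) * 2) ^ j ≤
      Nat.count (fun t => ∀ q ∈ PP z0, t % q ∉ Bq c n q) (2 ^ (y - 2)) := by
    rw [hEEd, hg]
    exact hbrun
  -- the counting set
  have hcount : Nat.count (fun t => ∀ q ∈ PP z0, t % q ∉ Bq c n q) (2 ^ (y - 2)) ≤ K.card := by
    rw [Nat.count_eq_card_filter_range]
    apply Finset.card_le_card_of_injOn (fun i => c + i)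
    · intro i hi
      have hi' := Finset.mem_filter.mp hi
      rw [Finset.mem_range] at hi'
      have e1 : 2 ^ (y - 2) = 2 * 2 ^ (y - 3) := by
        rw [← pow_succ']
        congr 1
        omega
      have e2 : 2 ^ (y - 1) = 4 * 2 ^ (y - 3) := by
        rw [show (4 : ℕ) = 2 ^ 2 by norm_num, ← pow_add]
        congr 1
        omega
      have hlt : c + i < n := by omega
      have hP : ∀ p : ℕ, p.Prime → p ≤ 2 ^ z0 → p ∈ PP z0 := fun p hp hpz =>
        Finset.mem_filter.mpr ⟨Finset.mem_range.mpr (by omega), hp⟩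
      apply hK (c + i) (by omega) (by omega)
      · intro p hp hpd
        by_contra hcon
        push Not at hcon
        apply hi'.2 p (hP p hp hcon)
        rw [Bq_mem c n p i hp.pos]
        left
        exact Nat.mod_eq_zero_of_dvd hpd
      · intro p hp hpd
        by_contra hcon
        push Not at hcon
        apply hi'.2 p (hP p hp hcon)
        rw [Bq_mem c n p i hp.pos]
        right
        exact (Nat.modEq_iff_dvd' hlt.le).mpr hpd
    · intro i _ j _ hij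
      exact Nat.add_left_cancel hij
  -- numerical bounds
  have h8 : (0 : ℝ) < 8 ^ (6 * a + 9) := by positivity
  have hm1 : 1 / (6 * 8 ^ (6 * a + 9)) ≤ ∏ q ∈ PP z0, (1 - g q) := by
    refine le_trans ?_ hprod
    have h1 : Real.exp (-(4 * S)) = (Real.exp (2 * ((6 * a + 9 : ℕ) : ℝ)))⁻¹ := by
      rw [← Real.exp_neg]
      congr 1
      rw [hSd]
      push_cast
      ring
    rw [h1]
    have h2 := exp_up (6 * a + 9)
    have h3 : ((8 : ℝ) ^ (6 * a + 9))⁻¹ ≤ (Real.exp (2 * ((6 * a + 9 : ℕ) : ℝ)))⁻¹ :=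
      inv_anti₀ (Real.exp_pos _) h2
    calc 1 / (6 * (8 : ℝ) ^ (6 * a + 9)) = 1 / 6 * ((8 : ℝ) ^ (6 * a + 9))⁻¹ := by
          rw [one_div, mul_inv]
          ring
      _ ≤ _ := by gcongr
  have hm2 : EE ≤ 1 / (64 * 8 ^ (6 * a + 9)) := by
    have h1 : Real.exp (3 * ∑ q ∈ PP z0, g q) ≤ 8 ^ (9 * a + 14) := by
      refine le_trans (Real.exp_le_exp.mpr ?_) (exp_up (9 * a + 14))
      have h2 : ∑ q ∈ PP z0, g q ≤ 2 * S := by
        calc ∑ q ∈ PP z0, g q ≤ ∑ q ∈ PP z0, 2 * (1 / (q : ℝ)) := Finset.sum_le_sum hg2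
          _ = 2 * ∑ q ∈ PP z0, 1 / (q : ℝ) := by rw [Finset.mul_sum]
          _ ≤ 2 * S := by linarith
      push_cast
      rw [hSd] at h2
      linarith
    have h3 : EE * 8 ^ k ≤ 8 ^ (9 * a + 14) := by
      refine le_trans ?_ (hEE.trans h1)
      rw [pow_mul]
      gcongr
      norm_num
    rw [hk, show 15 * a + 25 = (9 * a + 14) + (6 * a + 9 + 2) by ring, pow_add (8 : ℝ) (9 * a + 14),
      pow_add (8 : ℝ) (6 * a + 9)] at h3
    rw [le_div_iff₀ (by positivity)]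
    have h4 : (0 : ℝ) < 8 ^ (9 * a + 14) := by positivity
    have h5 : (EE * (64 * 8 ^ (6 * a + 9))) * 8 ^ (9 * a + 14) ≤ 1 * 8 ^ (9 * a + 14) := by
      calc (EE * (64 * 8 ^ (6 * a + 9))) * 8 ^ (9 * a + 14) =
          EE * (8 ^ (9 * a + 14) * (8 ^ (6 * a + 9) * 8 ^ 2)) := by ring
        _ ≤ 8 ^ (9 * a + 14) := h3
        _ = 1 * 8 ^ (9 * a + 14) := (one_mul _).symm
    exact le_of_mul_le_mul_right h5 h4
  have hm3 : 1 / (8 * 8 ^ (6 * a + 9)) ≤ ∏ q ∈ PP z0, (1 - g q) - EE := by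
    have e1 : (1 : ℝ) / (6 * 8 ^ (6 * a + 9)) = 1 / 6 * (1 / 8 ^ (6 * a + 9)) := by
      rw [one_div_mul_one_div]
    have e2 : (1 : ℝ) / (64 * 8 ^ (6 * a + 9)) = 1 / 64 * (1 / 8 ^ (6 * a + 9)) := by
      rw [one_div_mul_one_div]
    have e3 : (1 : ℝ) / (8 * 8 ^ (6 * a + 9)) = 1 / 8 * (1 / 8 ^ (6 * a + 9)) := by
      rw [one_div_mul_one_div]
    rw [e1] at hm1
    rw [e2] at hm2
    rw [e3]
    have : (0 : ℝ) < 1 / 8 ^ (6 * a + 9) := by positivity
    linarith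
  have herr : ∑ j ∈ range (2 * k), (((PP z0).card : ℝ) * 2) ^ j ≤ 2 ^ ((z0 + 1) * (2 * k)) := by
    have h1 : ((PP z0).card : ℝ) * 2 ≤ 2 ^ (z0 + 1) := by
      have h2 : (PP z0).card ≤ 2 ^ z0 := by
        have h3 : PP z0 ⊆ Ioc 0 (2 ^ z0) := by
          intro p hp
          obtain ⟨h4, h5⟩ := Finset.mem_filter.mp hp
          rw [Finset.mem_range] at h4
          rw [Finset.mem_Ioc]
          exact ⟨h5.pos, by omega⟩
        have h6 := Finset.card_le_card h3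
        rwa [Nat.card_Ioc, Nat.sub_zero] at h6
      have h7 : ((PP z0).card : ℝ) ≤ 2 ^ z0 := by exact_mod_cast h2
      rw [pow_succ]
      linarith
    have h2 := geo_le (((PP z0).card : ℝ) * 2) (2 ^ (z0 + 1)) (2 * k) (by positivity) h1 (by
      rw [pow_succ]
      have : (1 : ℝ) ≤ 2 ^ z0 := one_le_pow₀ (by norm_num)
      linarith)
    rw [← pow_mul] at h2
    exact h2
  -- conclusion
  have hT : ((2 ^ (y - 2) : ℕ) : ℝ) = 2 ^ y / 4 := by
    have : (2 : ℝ) ^ y = 2 ^ (y - 2) * 2 ^ 2 := by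
      rw [← pow_add]
      congr 1
      omega
    rw [this]
    push_cast
    ring
  rw [hT] at hbrun'
  have h9 : (8 : ℝ) * 8 ^ (6 * a + 9) = 2 ^ (18 * a + 30) := by
    rw [show (8 : ℝ) = 2 ^ 3 by norm_num, ← pow_mul, ← pow_add]
    congr 1
    ring
  rw [h9] at hm3
  have hmain : (2 : ℝ) ^ y / 2 ^ (18 * a + 32) ≤ 2 ^ y / 4 * (∏ q ∈ PP z0, (1 - g q) - EE) := by
    calc (2 : ℝ) ^ y / 2 ^ (18 * a + 32) = 2 ^ y / 4 * (1 / 2 ^ (18 * a + 30)) := by
          rw [pow_add (2 : ℝ) (18 * a) 32, pow_add (2 : ℝ) (18 * a) 30]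
          field_simp
          norm_num
      _ ≤ _ := by gcongr
  have herr2 : (2 : ℝ) ^ ((z0 + 1) * (2 * k)) ≤ 2 ^ y / 2 ^ (18 * a + 33) := by
    rw [le_div_iff₀ (by positivity), ← pow_add]
    apply pow_le_pow_right₀ (by norm_num)
    rw [hk, hy]
    nlinarith [Nat.mul_le_mul ha hz0, Nat.mul_le_mul_left a hz0]
  have hhalf : (2 : ℝ) ^ y / 2 ^ (18 * a + 32) = 2 ^ y / 2 ^ (18 * a + 33) +
      2 ^ y / 2 ^ (18 * a + 33) := by
    rw [pow_succ (2 : ℝ) (18 * a + 32)]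
    field_simp
    ring
  have hKr : ((Nat.count (fun t => ∀ q ∈ PP z0, t % q ∉ Bq c n q) (2 ^ (y - 2)) : ℕ) : ℝ) ≤
      K.card := by exact_mod_cast hcount
  have hfin : (2 : ℝ) ^ y / 2 ^ (18 * a + 33) ≤ K.card := by linarith
  rw [div_le_iff₀ (by positivity)] at hfin
  have hfin2 : 2 ^ y ≤ K.card * 2 ^ (18 * a + 33) := by exact_mod_cast hfin
  refine hfin2.trans (Nat.mul_le_mul_left _ (Nat.pow_le_pow_right (by norm_num) (by omega)))

end Pool.Agent.H51.EG.T.REP
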