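import Pool.Agent.H51.EG.T.FEJ

set_option autoImplicit false

/-! The start of the construction: a multiple of `N g_1 ... g_(2r)` just above `β`. -/

namespace Pool.Agent.H51.EG.T.START

open Finset Pool.Agent.H51.EG.T.EXP

/-- Cauchy's inequality -/
theorem cs (A : Finset ℕ) (U V : ℕ) (hA : A ⊆ Ico U V) (x : ℝ) :
    ‖∑ a ∈ A, ∑ b ∈ A, ee (x / ((a : ℝ) * b))‖ ^ 2 ≤
      A.card * ∑ b ∈ A, ∑ b' ∈ A, ‖∑ n ∈ Ico U V, ee ((x / b - x / b') / n)‖ := by
  have h1 : ‖∑ a ∈ A, ∑ b ∈ A, ee (x / ((a : ℝ) * b))‖ ^ 2 ≤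
      A.card * ∑ a ∈ A, ‖∑ b ∈ A, ee (x / ((a : ℝ) * b))‖ ^ 2 := by
    refine (pow_le_pow_left₀ (norm_nonneg _) (norm_sum_le _ _) 2).trans ?_
    exact sq_sum_le_card_mul_sum_sq
  refine h1.trans (mul_le_mul_of_nonneg_left ?_ (Nat.cast_nonneg _))
  have h2 : ∑ a ∈ A, ‖∑ b ∈ A, ee (x / ((a : ℝ) * b))‖ ^ 2 ≤
      ∑ n ∈ Ico U V, ‖∑ b ∈ A, ee (x / ((n : ℝ) * b))‖ ^ 2 :=
    Finset.sum_le_sum_of_subset_of_nonneg hA fun _ _ _ => by positivity
  refine h2.trans ?_
  have h3 : ((∑ n ∈ Ico U V, ‖∑ b ∈ A, ee (x / ((n : ℝ) * b))‖ ^ 2 : ℝ) : ℂ) =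
      ∑ b ∈ A, ∑ b' ∈ A, ∑ n ∈ Ico U V, ee ((x / b - x / b') / n) := by
    have h4 : ∀ n : ℕ, ((‖∑ b ∈ A, ee (x / ((n : ℝ) * b))‖ ^ 2 : ℝ) : ℂ) =
        ∑ b ∈ A, ∑ b' ∈ A, ee ((x / b - x / b') / n) := by
      intro n
      rw [Complex.ofReal_pow, ← Complex.mul_conj', map_sum, Finset.sum_mul_sum]
      apply Finset.sum_congr rfl
      intro b _
      apply Finset.sum_congr rfl
      intro b' _
      rw [← ee_neg, ← ee_add]
      congr 1
      rw [sub_div, div_div, div_div, mul_comm (b : ℝ), mul_comm (b' : ℝ)]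
      ring
    rw [Complex.ofReal_sum, Finset.sum_congr rfl fun n _ => h4 n, Finset.sum_comm]
    apply Finset.sum_congr rfl
    intro b _
    rw [Finset.sum_comm]
  have h5 : ∑ n ∈ Ico U V, ‖∑ b ∈ A, ee (x / ((n : ℝ) * b))‖ ^ 2 =
      ‖((∑ n ∈ Ico U V, ‖∑ b ∈ A, ee (x / ((n : ℝ) * b))‖ ^ 2 : ℝ) : ℂ)‖ := by
    rw [Complex.norm_real, Real.norm_of_nonneg]
    exact Finset.sum_nonneg fun _ _ => by positivity
  rw [h5, h3]
  exact norm_sum_le_of_le _ fun b _ => norm_sum_le _ _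

/-- bound for the double sum -/
theorem dbl (hE : S_EXP) (A : Finset ℕ) (U V w : ℕ) (hU : 1 ≤ U) (hA : A ⊆ Ico U V) (x T X : ℝ)
    (hT : 0 < T) (hw : 0 < w) (hx : T ≤ x) (hxX : x ≤ X) :
    ‖∑ a ∈ A, ∑ b ∈ A, ee (x / ((a : ℝ) * b))‖ ^ 2 ≤
      (A.card : ℝ) ^ 2 * ((2 * w + 1) * V + A.card * (16 * X / (U : ℝ) ^ 2 +
        4 * (V : ℝ) ^ 4 / (T * w))) := by
  classical
  have hU0 : (0 : ℝ) < U := by exact_mod_cast (by omega : 0 < U)
  have hw0 : (0 : ℝ) < w := by exact_mod_cast hw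
  have hx0 : 0 < x := lt_of_lt_of_le hT hx
  have hX0 : 0 < X := lt_of_lt_of_le hx0 hxX
  refine (cs A U V hA x).trans ?_
  have hF : (0 : ℝ) ≤ 16 * X / (U : ℝ) ^ 2 + 4 * (V : ℝ) ^ 4 / (T * w) := by positivity
  have key : ∀ b ∈ A, ∑ b' ∈ A, ‖∑ n ∈ Ico U V, ee ((x / b - x / b') / n)‖ ≤
      (2 * w + 1) * V + A.card * (16 * X / (U : ℝ) ^ 2 + 4 * (V : ℝ) ^ 4 / (T * w)) := by
    intro b hb
    have hb1 := Finset.mem_Ico.mp (hA hb)
    rw [← Finset.sum_filter_add_sum_filter_not A (fun b' => b' ∈ Icc (b - w) (b + w))]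
    apply add_le_add
    · have hc : ((A.filter fun b' => b' ∈ Icc (b - w) (b + w)).card : ℝ) ≤ 2 * w + 1 := by
        have h1 : (A.filter fun b' => b' ∈ Icc (b - w) (b + w)).card ≤ 2 * w + 1 := by
          refine (Finset.card_le_card (t := Icc (b - w) (b + w)) ?_).trans ?_
          · intro b' hb'
            exact (Finset.mem_filter.mp hb').2
          · rw [Nat.card_Icc]
            omega
        exact_mod_cast h1
      calc ∑ b' ∈ A.filter (fun b' => b' ∈ Icc (b - w) (b + w)),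
            ‖∑ n ∈ Ico U V, ee ((x / b - x / b') / n)‖ ≤
          ∑ b' ∈ A.filter (fun b' => b' ∈ Icc (b - w) (b + w)), (V : ℝ) := by
            apply Finset.sum_le_sum
            intro b' _
            refine (norm_sum_le _ _).trans ?_
            simp only [ee_norm, Finset.sum_const, Nat.card_Ico, nsmul_eq_mul, mul_one]
            exact_mod_cast Nat.sub_le _ _
        _ = ((A.filter fun b' => b' ∈ Icc (b - w) (b + w)).card : ℝ) * V := by
            rw [Finset.sum_const, nsmul_eq_mul]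
        _ ≤ (2 * w + 1) * V := by gcongr
    · calc ∑ b' ∈ A.filter (fun b' => ¬ b' ∈ Icc (b - w) (b + w)),
            ‖∑ n ∈ Ico U V, ee ((x / b - x / b') / n)‖ ≤
          ∑ b' ∈ A.filter (fun b' => ¬ b' ∈ Icc (b - w) (b + w)),
            (16 * X / (U : ℝ) ^ 2 + 4 * (V : ℝ) ^ 4 / (T * w)) := by
            apply Finset.sum_le_sum
            intro b' hb'
            obtain ⟨hb'A, hb'2⟩ := Finset.mem_filter.mp hb'
            have hb'1 := Finset.mem_Ico.mp (hA hb'A)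
            rw [Finset.mem_Icc] at hb'2
            have hdist : (w : ℝ) ≤ |(b' : ℝ) - b| := by
              rcases Nat.lt_or_ge b' b with hlt | hge
              · have h1 : b' + w ≤ b := by omega
                have h2 : (b' : ℝ) + w ≤ b := by exact_mod_cast h1
                rw [abs_sub_comm, abs_of_nonneg (by linarith)]
                linarith
              · have h1 : b + w ≤ b' := by omega
                have h2 : (b : ℝ) + w ≤ b' := by exact_mod_cast h1
                rw [abs_of_nonneg (by linarith)]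
                linarith
            have hbU : (U : ℝ) ≤ b := by exact_mod_cast hb1.1
            have hb'U : (U : ℝ) ≤ b' := by exact_mod_cast hb'1.1
            have hbV : (b : ℝ) ≤ V := by exact_mod_cast hb1.2.le
            have hb'V : (b' : ℝ) ≤ V := by exact_mod_cast hb'1.2.le
            have hb0 : (0 : ℝ) < b := by linarith
            have hb'0 : (0 : ℝ) < b' := by linarith
            have hV0 : (0 : ℝ) < V := by linarith
            have hΔe : |x / b - x / b'| = x * |(b' : ℝ) - b| / (b * b') := by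
              have h1 : x / b - x / b' = x * ((b' : ℝ) - b) / (b * b') := by
                field_simp
              rw [h1, abs_div, abs_mul, abs_of_pos hx0, abs_of_pos (mul_pos hb0 hb'0)]
            have hΔlow : T * w / (V : ℝ) ^ 2 ≤ |x / b - x / b'| := by
              rw [hΔe]
              apply div_le_div₀ (by positivity) (mul_le_mul hx hdist hw0.le hx0.le)
                (by positivity)
              rw [sq]
              exact mul_le_mul hbV hb'V hb'0.le hV0.le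
            have hΔ0 : 0 < |x / b - x / b'| := lt_of_lt_of_le (by positivity) hΔlow
            have hΔup : |x / b - x / b'| ≤ X / U := by
              have h1 : x / b ≤ X / U := div_le_div₀ hX0.le hxX hU0 hbU
              have h2 : x / b' ≤ X / U := div_le_div₀ hX0.le hxX hU0 hb'U
              have h3 : 0 ≤ x / b := by positivity
              have h4 : 0 ≤ x / b' := by positivity
              rw [abs_le]
              constructor <;> linarith
            refine (hE U V (x / b - x / b') hU (by omega) (abs_pos.mp hΔ0)).trans ?_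
            apply add_le_add
            · rw [show 16 * X / (U : ℝ) ^ 2 = 16 * (X / U) / U by field_simp]
              gcongr
            · rw [div_le_div_iff₀ hΔ0 (by positivity)]
              have h5 : T * w ≤ |x / b - x / b'| * (V : ℝ) ^ 2 := by
                rw [div_le_iff₀ (by positivity)] at hΔlow
                exact hΔlow
              calc 4 * (V : ℝ) ^ 2 * (T * w) ≤ 4 * (V : ℝ) ^ 2 *
                    (|x / b - x / b'| * (V : ℝ) ^ 2) := by gcongr
                _ = 4 * (V : ℝ) ^ 4 * |x / b - x / b'| := by ring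
        _ = ((A.filter fun b' => ¬ b' ∈ Icc (b - w) (b + w)).card : ℝ) *
            (16 * X / (U : ℝ) ^ 2 + 4 * (V : ℝ) ^ 4 / (T * w)) := by
            rw [Finset.sum_const, nsmul_eq_mul]
        _ ≤ A.card * (16 * X / (U : ℝ) ^ 2 + 4 * (V : ℝ) ^ 4 / (T * w)) := by
            apply mul_le_mul_of_nonneg_right _ hF
            exact_mod_cast Finset.card_le_card (Finset.filter_subset _ _)
  calc (A.card : ℝ) * ∑ b ∈ A, ∑ b' ∈ A, ‖∑ n ∈ Ico U V, ee ((x / b - x / b') / n)‖ ≤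
      A.card * ∑ b ∈ A, ((2 * w + 1) * V + A.card * (16 * X / (U : ℝ) ^ 2 +
        4 * (V : ℝ) ^ 4 / (T * w))) := by
        gcongr with b hb
        exact key b hb
    _ = _ := by
        rw [Finset.sum_const, nsmul_eq_mul]
        ring

/-- the products of `r` elements of `G` -/
noncomputable def AA (G : Finset ℕ) (r : ℕ) : Finset ℕ :=
  Finset.univ.image (fun f : Fin r → G => ∏ i, (f i : ℕ))

theorem AA_card (G : Finset ℕ) (r : ℕ) (hG : ∀ g ∈ G, g.Prime) :
    G.card ^ r ≤ r ^ r * (AA G r).card := by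
  classical
  have h1 : G.card ^ r = (Finset.univ : Finset (Fin r → G)).card := by
    rw [Finset.card_univ, Fintype.card_fun, Fintype.card_fin, Fintype.card_coe]
  rw [h1]
  apply Finset.card_le_mul_card_image
  intro n hn
  obtain ⟨f0, -, hf0⟩ := Finset.mem_image.mp hn
  have h2 : r ^ r = (Finset.univ : Finset (Fin r → Fin r)).card := by
    rw [Finset.card_univ, Fintype.card_fun, Fintype.card_fin]
  rw [h2]
  have hex : ∀ f ∈ (Finset.univ : Finset (Fin r → G)).filter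
      (fun f => ∏ i, (f i : ℕ) = n), ∀ i, ∃ j, f i = f0 j := by
    intro f hf i
    have h3 := (Finset.mem_filter.mp hf).2
    have h4 : (f i : ℕ) ∣ ∏ j, (f0 j : ℕ) := by
      rw [hf0, ← h3]
      exact Finset.dvd_prod_of_mem _ (Finset.mem_univ i)
    obtain ⟨j, -, hj⟩ := (Nat.Prime.prime (hG _ (f i).2)).exists_mem_finset_dvd h4
    exact ⟨j, Subtype.ext ((Nat.prime_dvd_prime_iff_eq (hG _ (f i).2) (hG _ (f0 j).2)).mp hj)⟩
  refine Finset.card_le_card_of_injOn
    (fun f i => if h : ∃ j, f i = f0 j then h.choose else i) (fun _ _ => Finset.mem_univ _) ?_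
  intro f hf g hg hfg
  funext i
  have h3 := congrFun hfg i
  have h4 := hex f hf i
  have h5 := hex g hg i
  simp only [dif_pos h4, dif_pos h5] at h3
  rw [h4.choose_spec, h3, ← h5.choose_spec]

theorem AA_mem (G : Finset ℕ) (r μ : ℕ) (hG : ∀ g ∈ G, 2 ^ μ < g ∧ g ≤ 2 ^ (μ + 3)) (a : ℕ)
    (ha : a ∈ AA G r) : 2 ^ (r * μ) ≤ a ∧ a ≤ 2 ^ (r * (μ + 3)) ∧
      ∃ gs : List ℕ, (∀ g ∈ gs, g ∈ G) ∧ gs.length = r ∧ gs.prod = a := by
  classical
  obtain ⟨f, -, rfl⟩ := Finset.mem_image.mp ha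
  refine ⟨?_, ?_, List.ofFn (fun i => (f i : ℕ)), ?_, ?_, ?_⟩
  · calc 2 ^ (r * μ) = ∏ _i : Fin r, 2 ^ μ := by
          rw [Finset.prod_const, Finset.card_univ, Fintype.card_fin, ← pow_mul, mul_comm]
      _ ≤ ∏ i, (f i : ℕ) := Finset.prod_le_prod' fun i _ => (hG _ (f i).2).1.le
  · calc ∏ i, (f i : ℕ) ≤ ∏ _i : Fin r, 2 ^ (μ + 3) :=
          Finset.prod_le_prod' fun i _ => (hG _ (f i).2).2
      _ = 2 ^ (r * (μ + 3)) := by
          rw [Finset.prod_const, Finset.card_univ, Fintype.card_fin, ← pow_mul, mul_comm]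
  · intro g hg
    rw [List.mem_ofFn] at hg
    obtain ⟨i, rfl⟩ := hg
    exact (f i).2
  · simp
  · rw [List.prod_ofFn]

/-- the numerical bound -/
theorem num (D E T U V w n N : ℝ) (hD : 1 ≤ D) (hE : 1 ≤ E) (hN0 : 0 < N) (_hN : N ≤ D)
    (hT1 : D ^ 99 / 2 ≤ T) (hT2 : T ≤ D ^ 101) (hU : U = D ^ 40) (hw : w = D ^ 30) (hV0 : 0 ≤ V)
    (hV : V ≤ 2 * E * D ^ 40) (hn : n ≤ V) (hn0 : 0 ≤ n) :
    (2 * w + 1) * V + n * (16 * (4 * D ^ 2 * T) / U ^ 2 + 4 * V ^ 4 / (T * w)) ≤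
      400 * E ^ 5 * D ^ 71 := by
  have hD0 : 0 < D := by linarith
  have hE0 : 0 < E := by linarith
  have hE5 : E ≤ E ^ 5 := by
    calc E = E ^ 1 := (pow_one E).symm
      _ ≤ E ^ 5 := pow_le_pow_right₀ hE (by norm_num)
  have hT0 : 0 < T := lt_of_lt_of_le (by positivity) hT1
  have h1 : (2 * w + 1) * V ≤ 6 * E ^ 5 * D ^ 71 := by
    have e1 : 2 * w + 1 ≤ 3 * D ^ 30 := by
      rw [hw]
      have : (1 : ℝ) ≤ D ^ 30 := one_le_pow₀ hD
      linarith
    calc (2 * w + 1) * V ≤ (3 * D ^ 30) * (2 * E * D ^ 40) := by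
          apply mul_le_mul e1 hV hV0 (by positivity)
      _ = 6 * E * D ^ 70 := by ring
      _ ≤ 6 * E ^ 5 * D ^ 71 := by
          gcongr
          norm_num
  have h2 : 16 * (4 * D ^ 2 * T) / U ^ 2 ≤ 64 * D ^ 23 := by
    rw [div_le_iff₀ (by rw [hU]; positivity), hU]
    calc 16 * (4 * D ^ 2 * T) ≤ 16 * (4 * D ^ 2 * D ^ 101) := by gcongr
      _ = 64 * D ^ 23 * (D ^ 40) ^ 2 := by ring
  have h3 : 4 * V ^ 4 / (T * w) ≤ 128 * E ^ 4 * D ^ 31 := by
    rw [div_le_iff₀ (by rw [hw]; positivity), hw]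
    calc 4 * V ^ 4 ≤ 4 * (2 * E * D ^ 40) ^ 4 := by gcongr
      _ = 128 * E ^ 4 * D ^ 31 * (D ^ 99 / 2 * D ^ 30) := by ring
      _ ≤ 128 * E ^ 4 * D ^ 31 * (T * D ^ 30) := by gcongr
  have h4 : n * (16 * (4 * D ^ 2 * T) / U ^ 2 + 4 * V ^ 4 / (T * w)) ≤
      384 * E ^ 5 * D ^ 71 := by
    calc n * (16 * (4 * D ^ 2 * T) / U ^ 2 + 4 * V ^ 4 / (T * w)) ≤
        (2 * E * D ^ 40) * (64 * D ^ 23 + 128 * E ^ 4 * D ^ 31) := by
          apply mul_le_mul (hn.trans hV) (add_le_add h2 h3) _ (by positivity)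
          rw [hU, hw]
          positivity
      _ = 128 * E * D ^ 63 + 256 * E ^ 5 * D ^ 71 := by ring
      _ ≤ 128 * E ^ 5 * D ^ 71 + 256 * E ^ 5 * D ^ 71 := by
          have : D ^ 63 ≤ D ^ 71 := pow_le_pow_right₀ hD (by norm_num)
          have h5 : 128 * E * D ^ 63 ≤ 128 * E ^ 5 * D ^ 71 := by gcongr
          linarith
      _ = 384 * E ^ 5 * D ^ 71 := by ring
  have h5 : 0 ≤ E ^ 5 * D ^ 71 := by positivity
  nlinarith

theorem main (hE : S_EXP) (hF : S_FEJ) : S_START := by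
  intro N β μ d r G hN hND hμ hr hG hGc hrμ hβ1 hβ2 hbig
  classical
  have hmem := fun a ha => AA_mem G r μ (fun g hg => (hG g hg).2) a ha
  by_cases hcase : ∃ a ∈ AA G r, ∃ b ∈ AA G r, N * a * b ≤ β % (N * a * b) + a * b
  · obtain ⟨a, ha, b, hb, h⟩ := hcase
    obtain ⟨-, -, gs, hgs1, hgs2, hgs3⟩ := hmem a ha
    obtain ⟨-, -, gs', hgs1', hgs2', hgs3'⟩ := hmem b hb
    have ha0 : 0 < a := lt_of_lt_of_le (by positivity) (hmem a ha).1
    have hb0 : 0 < b := lt_of_lt_of_le (by positivity) (hmem b hb).1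
    refine ⟨gs ++ gs', ?_, ?_, β / (N * a * b) + 1, ?_, ?_⟩
    · intro g hg
      rcases List.mem_append.mp hg with hg | hg
      · exact hgs1 g hg
      · exact hgs1' g hg
    · rw [List.length_append, hgs2, hgs2']
      ring
    · rw [List.prod_append, hgs3, hgs3', ← mul_assoc]
      exact Nat.lt_mul_div_succ β (by positivity)
    · rw [List.prod_append, hgs3, hgs3', ← mul_assoc, mul_add, mul_one]
      have := Nat.div_add_mod β (N * a * b)
      omega
  · exfalso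
    push Not at hcase
    -- real parameters
    obtain ⟨D, hD⟩ : ∃ D : ℝ, D = 2 ^ d := ⟨_, rfl⟩
    have hD1 : 1 ≤ D := by rw [hD]; exact one_le_pow₀ (by norm_num)
    have hD0 : 0 < D := by linarith
    obtain ⟨E, hEd⟩ : ∃ E : ℝ, E = 8 ^ r := ⟨_, rfl⟩
    have hE1 : 1 ≤ E := by rw [hEd]; exact one_le_pow₀ (by norm_num)
    have hN0 : (0 : ℝ) < N := by exact_mod_cast hN
    have hN1 : (1 : ℝ) ≤ N := by exact_mod_cast hN
    have hND' : (N : ℝ) ≤ D := by rw [hD]; exact_mod_cast hND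
    have hβlow : D ^ 100 ≤ (β : ℝ) + 1 := by
      rw [hD, ← pow_mul, mul_comm d]
      exact_mod_cast hβ1
    have hβup : (β : ℝ) ≤ D ^ 101 := by
      rw [hD, ← pow_mul, mul_comm d]
      exact_mod_cast hβ2
    have hmr : 1 ≤ μ * r := Nat.mul_pos hμ hr
    -- D is large
    have hP : ((2 * μ * r : ℕ) : ℝ) ^ (2 * r) * E ^ 5 * 2 ^ 100 ≤ D := by
      have h1 : (2 * μ * r) ^ (2 * r) * (8 ^ r) ^ 5 * 2 ^ 100 ≤ 2 ^ d := by
        refine le_trans ?_ hbig
        apply Nat.mul_le_mul_right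
        have e1 : (2 * μ * r) ^ (2 * r) * (8 ^ r) ^ 5 = ((2 * (μ * r)) ^ 2 * 8 ^ 5) ^ r := by
          rw [mul_assoc 2 μ r, mul_pow ((2 * (μ * r)) ^ 2) (8 ^ 5) r,
            ← pow_mul (2 * (μ * r)) 2 r, ← pow_mul 8 r 5, ← pow_mul 8 5 r, mul_comm 5 r]
        have e2 : (64 * μ * r) ^ (8 * r) = ((64 * (μ * r)) ^ 8) ^ r := by
          rw [← pow_mul, mul_assoc 64 μ r]
        rw [e1, e2]
        apply Nat.pow_le_pow_left
        have e3 : (μ * r) ^ 2 ≤ (μ * r) ^ 8 := Nat.pow_le_pow_right hmr (by norm_num)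
        calc (2 * (μ * r)) ^ 2 * 8 ^ 5 = 131072 * (μ * r) ^ 2 := by ring
          _ ≤ 281474976710656 * (μ * r) ^ 8 := Nat.mul_le_mul (by norm_num) e3
          _ = (64 * (μ * r)) ^ 8 := by ring
      rw [hEd, hD]
      exact_mod_cast h1
    have hP1 : (1 : ℝ) ≤ ((2 * μ * r : ℕ) : ℝ) ^ (2 * r) := by
      apply one_le_pow₀
      have : 1 ≤ 2 * μ * r := by nlinarith
      exact_mod_cast this
    have hDbig : (2 : ℝ) ^ 100 ≤ D := by
      refine le_trans ?_ hP
      have h1 : (1 : ℝ) ≤ E ^ 5 := one_le_pow₀ hE1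
      have h2 : (1 : ℝ) ≤ ((2 * μ * r : ℕ) : ℝ) ^ (2 * r) * E ^ 5 := by nlinarith
      nlinarith [show (0 : ℝ) < 2 ^ 100 by positivity]
    -- the set of products
    obtain ⟨A, hA⟩ : ∃ A, A = AA G r := ⟨_, rfl⟩
    rw [← hA] at hcase hmem
    obtain ⟨U, hU⟩ : ∃ U : ℕ, U = 2 ^ (r * μ) := ⟨_, rfl⟩
    obtain ⟨V, hV⟩ : ∃ V : ℕ, V = 2 ^ (r * (μ + 3)) + 1 := ⟨_, rfl⟩
    have hU1 : 1 ≤ U := by rw [hU]; exact Nat.one_le_two_pow
    have hAsub : A ⊆ Ico U V := by
      intro a ha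
      rw [Finset.mem_Ico, hU, hV]
      exact ⟨(hmem a ha).1, Nat.lt_succ_of_le (hmem a ha).2.1⟩
    have hUD : (U : ℝ) = D ^ 40 := by
      rw [hU, hrμ, hD, ← pow_mul, mul_comm d]
      push_cast
      ring
    have hVD : (V : ℝ) ≤ 2 * E * D ^ 40 := by
      have h1 : (V : ℝ) = E * D ^ 40 + 1 := by
        rw [hV, mul_add, hrμ, hD, hEd, ← pow_mul, mul_comm d]
        push_cast
        rw [pow_add, mul_comm r 3, pow_mul (2 : ℝ) 3 r]
        norm_num
        ring
      have h2 : 1 ≤ E * D ^ 40 := by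
        have := one_le_pow₀ (n := 40) hD1
        nlinarith
      linarith
    have hnV : (A.card : ℝ) ≤ V := by
      have h1 : A.card ≤ V := by
        refine (Finset.card_le_card hAsub).trans ?_
        rw [Nat.card_Ico]
        exact Nat.sub_le _ _
      exact_mod_cast h1
    have hncard : D ^ 40 ≤ ((2 * μ * r : ℕ) : ℝ) ^ r * A.card := by
      have h1 := AA_card G r (fun g hg => (hG g hg).1)
      rw [← hA] at h1
      have h2 : 2 ^ (r * μ) ≤ (2 * μ * r) ^ r * A.card := by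
        calc 2 ^ (r * μ) = (2 ^ μ) ^ r := by rw [← pow_mul, mul_comm]
          _ ≤ (2 * μ * G.card) ^ r := Nat.pow_le_pow_left hGc r
          _ = (2 * μ) ^ r * G.card ^ r := by rw [mul_pow]
          _ ≤ (2 * μ) ^ r * (r ^ r * A.card) := Nat.mul_le_mul_left _ h1
          _ = (2 * μ * r) ^ r * A.card := by rw [← mul_assoc, ← mul_pow]
      rw [← hUD, hU]
      exact_mod_cast h2
    obtain ⟨T, hT⟩ : ∃ T : ℝ, T = β / N := ⟨_, rfl⟩
    have hD100 : D ^ 100 / 2 ≤ β := by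
      have : (2 : ℝ) ≤ D ^ 100 := by
        calc (2 : ℝ) ≤ 2 ^ 100 := by norm_num
          _ ≤ D := hDbig
          _ = D ^ 1 := (pow_one D).symm
          _ ≤ D ^ 100 := pow_le_pow_right₀ hD1 (by norm_num)
      linarith
    have hT1 : D ^ 99 / 2 ≤ T := by
      rw [hT, le_div_iff₀ hN0]
      calc D ^ 99 / 2 * N ≤ D ^ 99 / 2 * D := by gcongr
        _ = D ^ 100 / 2 := by ring
        _ ≤ β := hD100
    have hT2 : T ≤ D ^ 101 := by
      rw [hT, div_le_iff₀ hN0]
      calc (β : ℝ) ≤ D ^ 101 := hβup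
        _ = D ^ 101 * 1 := (mul_one _).symm
        _ ≤ D ^ 101 * N := by gcongr
    have hT0 : 0 < T := lt_of_lt_of_le (by positivity) hT1
    obtain ⟨w, hw⟩ : ∃ w : ℕ, w = 2 ^ (30 * d) := ⟨_, rfl⟩
    have hwD : (w : ℝ) = D ^ 30 := by
      rw [hw, hD, ← pow_mul, mul_comm d]
      push_cast
      ring
    obtain ⟨B, hB⟩ : ∃ B : ℝ, B = 400 * E ^ 5 * D ^ 71 := ⟨_, rfl⟩
    have hB0 : 0 ≤ B := by rw [hB]; positivity
    -- the Fejer inequality
    have hfe := hF (ℕ × ℕ) (A ×ˢ A) (fun j => (β : ℝ) / ((N * j.1 * j.2 : ℕ) : ℝ)) (1 / N)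
      (A.card * Real.sqrt B) (4 * 4 ^ d) (by positivity)
      (by rw [div_le_one hN0]; exact hN1) (by positivity) ?_ ?_
    · rw [Finset.card_product] at hfe
      push_cast at hfe
      have e1 : (4 : ℝ) * 4 ^ d = 4 * D ^ 2 := by
        rw [hD, ← pow_mul, mul_comm d, pow_mul]
        norm_num
      rw [e1] at hfe
      have hn1 : (0 : ℝ) < A.card := by
        have h1 : 0 < ((2 * μ * r : ℕ) : ℝ) ^ r * A.card :=
          lt_of_lt_of_le (by positivity) hncard
        exact pos_of_mul_pos_right h1 (by positivity)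
      have h2 : ((A.card : ℝ) * A.card) / (1 / (N : ℝ)) ^ 2 ≤ D ^ 2 * (A.card : ℝ) ^ 2 := by
        rw [one_div, inv_pow, div_inv_eq_mul]
        calc (A.card : ℝ) * A.card * (N : ℝ) ^ 2 ≤ (A.card : ℝ) * A.card * D ^ 2 := by gcongr
          _ = D ^ 2 * (A.card : ℝ) ^ 2 := by ring
      have h3 : 3 * (A.card : ℝ) ≤ 16 * D ^ 2 * Real.sqrt B := by
        have h4 : (D ^ 2 * A.card) * (3 * (A.card : ℝ)) ≤
            (D ^ 2 * A.card) * (16 * D ^ 2 * Real.sqrt B) := by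
          nlinarith
        exact le_of_mul_le_mul_left h4 (by positivity)
      have h5 : 9 * (A.card : ℝ) ^ 2 ≤ 256 * D ^ 4 * B := by
        have h6 := mul_le_mul h3 h3 (by positivity) (by positivity)
        have h7 := Real.mul_self_sqrt hB0
        calc 9 * (A.card : ℝ) ^ 2 = 3 * (A.card : ℝ) * (3 * A.card) := by ring
          _ ≤ 16 * D ^ 2 * Real.sqrt B * (16 * D ^ 2 * Real.sqrt B) := h6
          _ = 256 * D ^ 4 * (Real.sqrt B * Real.sqrt B) := by ring
          _ = 256 * D ^ 4 * B := by rw [h7]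
      have h8 : D ^ 80 ≤ ((2 * μ * r : ℕ) : ℝ) ^ (2 * r) * (A.card : ℝ) ^ 2 := by
        have h9 := mul_le_mul hncard hncard (by positivity) (by positivity)
        calc D ^ 80 = D ^ 40 * D ^ 40 := by ring
          _ ≤ _ := h9
          _ = _ := by ring
      have h10 : 9 * D ^ 80 ≤ 102400 * (((2 * μ * r : ℕ) : ℝ) ^ (2 * r) * E ^ 5) * D ^ 75 := by
        calc 9 * D ^ 80 ≤ 9 * (((2 * μ * r : ℕ) : ℝ) ^ (2 * r) * (A.card : ℝ) ^ 2) := by gcongr
          _ = ((2 * μ * r : ℕ) : ℝ) ^ (2 * r) * (9 * (A.card : ℝ) ^ 2) := by ring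
          _ ≤ ((2 * μ * r : ℕ) : ℝ) ^ (2 * r) * (256 * D ^ 4 * B) := by gcongr
          _ = 102400 * (((2 * μ * r : ℕ) : ℝ) ^ (2 * r) * E ^ 5) * D ^ 75 := by rw [hB]; ring
      have h11 : 9 * D ^ 5 ≤ 102400 * (((2 * μ * r : ℕ) : ℝ) ^ (2 * r) * E ^ 5) := by
        have h12 : (9 * D ^ 5) * D ^ 75 ≤
            (102400 * (((2 * μ * r : ℕ) : ℝ) ^ (2 * r) * E ^ 5)) * D ^ 75 := by
          calc (9 * D ^ 5) * D ^ 75 = 9 * D ^ 80 := by ring
            _ ≤ _ := h10
        exact le_of_mul_le_mul_right h12 (by positivity)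
      have h13 : D ≤ D ^ 5 := by
        calc D = D ^ 1 := (pow_one D).symm
          _ ≤ D ^ 5 := pow_le_pow_right₀ hD1 (by norm_num)
      have h14 : (2 : ℝ) ^ 100 = 1267650600228229401496703205376 := by norm_num
      rw [h14] at hP
      have h15 : 0 < ((2 * μ * r : ℕ) : ℝ) ^ (2 * r) * E ^ 5 := by positivity
      linarith
    · -- the fractional parts
      intro j hj
      obtain ⟨hj1, hj2⟩ := Finset.mem_product.mp hj
      have h1 := hcase j.1 hj1 j.2 hj2
      have ha0 : 0 < j.1 := lt_of_lt_of_le (by positivity) (hmem _ hj1).1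
      have hb0 : 0 < j.2 := lt_of_lt_of_le (by positivity) (hmem _ hj2).1
      rw [Int.fract_div_natCast_eq_div_natCast_mod]
      have hm : (0 : ℝ) < ((N * j.1 * j.2 : ℕ) : ℝ) := by positivity
      rw [div_lt_iff₀ hm]
      have h2 : ((β % (N * j.1 * j.2) : ℕ) : ℝ) + (j.1 : ℝ) * j.2 < ((N * j.1 * j.2 : ℕ) : ℝ) := by
        exact_mod_cast h1
      have h3 : (1 - 1 / (N : ℝ)) * ((N * j.1 * j.2 : ℕ) : ℝ) =
          ((N * j.1 * j.2 : ℕ) : ℝ) - (j.1 : ℝ) * j.2 := by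
        push_cast
        field_simp
      rw [h3]
      linarith
    · -- the exponential sums
      intro h hh1 hh2
      have hhH : (h : ℝ) ≤ 4 * D ^ 2 := by
        have h1 : (h : ℝ) ≤ 4 * 4 ^ d := by exact_mod_cast hh2.le
        have e1 : (4 : ℝ) * 4 ^ d = 4 * D ^ 2 := by
          rw [hD, ← pow_mul, mul_comm d, pow_mul]
          norm_num
        linarith
      have hh1' : (1 : ℝ) ≤ h := by exact_mod_cast hh1
      have hb := dbl hE A U V w hU1 hAsub (h * T) T (4 * D ^ 2 * T) hT0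
        (by rw [hw]; positivity) (by nlinarith) (by gcongr)
      have hnum := num D E T U V w A.card N hD1 hE1 hN0 hND' hT1 hT2 hUD hwD
        (Nat.cast_nonneg _) hVD hnV (Nat.cast_nonneg _)
      have h1 : ‖∑ a ∈ A, ∑ b ∈ A, ee ((h : ℝ) * T / ((a : ℝ) * b))‖ ^ 2 ≤
          ((A.card : ℝ) * Real.sqrt B) ^ 2 := by
        rw [mul_pow, Real.sq_sqrt hB0, hB]
        exact hb.trans (mul_le_mul_of_nonneg_left hnum (by positivity))
      have h2 := (sq_le_sq₀ (norm_nonneg _) (by positivity)).mp h1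
      refine le_trans (le_of_eq ?_) h2
      rw [Finset.sum_product]
      congr 1
      apply Finset.sum_congr rfl
      intro a _
      apply Finset.sum_congr rfl
      intro b _
      show ee ((h : ℝ) * ((β : ℝ) / ((N * a * b : ℕ) : ℝ))) = _
      congr 1
      rw [hT]
      push_cast
      rw [mul_div_assoc, div_div]
      ring

end Pool.Agent.H51.EG.T.START
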