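import Pool.Agent.H51.EG.Def

set_option autoImplicit false

/-! Takenouchi's theorem: distinct unit fractions. -/

namespace Pool.Agent.H51.EG.T.TAK

open Finset

/-- sum over a multiset -/
def ms (m : Multiset ℕ) : ℚ := (m.map (fun n : ℕ => (1 : ℚ) / n)).sum

theorem ms_cons (a : ℕ) (m : Multiset ℕ) : ms (a ::ₘ m) = 1 / a + ms m := by
  simp [ms]

theorem ms_val (S : Finset ℕ) : ms S.val = ∑ n ∈ S, (1 : ℚ) / n := rfl

theorem ms_nonneg (m : Multiset ℕ) : 0 ≤ ms m := by
  induction m using Multiset.induction_on with
  | empty => simp [ms]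
  | cons a m ih => rw [ms_cons]; positivity

theorem main : S_TAK := by
  intro k
  induction k with
  | zero =>
    rintro x ⟨m, hm, -, hs⟩ -
    have hm0 : m = 0 := by
      rw [← Multiset.card_eq_zero]; omega
    subst hm0
    exact ⟨∅, by simp, by simp, by simpa using hs⟩
  | succ k ih =>
    rintro x ⟨m, hm, hpos, hs⟩ hx
    rcases m.empty_or_exists_mem with rfl | ⟨a, ha⟩
    · exact ⟨∅, by simp, by simp, by simpa using hs⟩
    obtain ⟨m', rfl⟩ := Multiset.exists_cons_of_mem ha
    have hex : ∃ n : ℕ, 0 < n ∧ ∃ m : Multiset ℕ, m.card ≤ k ∧ (∀ n ∈ m, 0 < n) ∧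
        (1 : ℚ) / n + ms m = x := by
      refine ⟨a, hpos a (by simp), m', ?_, fun n hn => hpos n (by simp [hn]), ?_⟩
      · rw [Multiset.card_cons] at hm; omega
      · rw [← hs]
        simp [ms]
    classical
    set n := Nat.find hex with hn
    obtain ⟨hn0, m₁, h1, h2, h3⟩ := Nat.find_spec hex
    rw [← hn] at hn0 h3
    have hnpos : (0 : ℚ) < n := by exact_mod_cast hn0
    have hx1 : x - 1 / n < 1 := by
      have : (0 : ℚ) < 1 / n := by positivity
      linarith
    obtain ⟨S, hS1, hS2, hS3⟩ := ih (x - 1 / n) ⟨m₁, h1, h2, by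
      have : ms m₁ = x - 1 / n := by linarith
      simpa [ms] using this⟩ hx1
    by_cases hnS : n ∈ S
    · exfalso
      have hSe : ∑ i ∈ S.erase n, (1 : ℚ) / i + 1 / n = x - 1 / n := by
        rw [← hS3]; exact Finset.sum_erase_add _ _ hnS
      have hce : (S.erase n).card + 1 ≤ k := by
        rw [Finset.card_erase_of_mem hnS]
        have : 0 < S.card := Finset.card_pos.2 ⟨n, hnS⟩
        omega
      have hpe : ∀ i ∈ (S.erase n).val, 0 < i := fun i hi => hS2 i (Finset.mem_of_mem_erase hi)
      rcases Nat.even_or_odd' n with ⟨c, hc | hc⟩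
      · -- even
        have hc0 : 0 < c := by omega
        have hlt : c < n := by omega
        refine Nat.find_min hex hlt ⟨hc0, (S.erase n).val, ?_, hpe, ?_⟩
        · change (S.erase n).card ≤ k; omega
        · rw [ms_val]
          have e1 : (1 : ℚ) / c = 1 / n + 1 / n := by
            rw [hc]; push_cast
            have : (c : ℚ) ≠ 0 := by exact_mod_cast hc0.ne'
            field_simp
            norm_num
          rw [e1]; linarith
      · rcases Nat.eq_zero_or_pos c with hc0 | hc0
        · -- n = 1
          rw [hc0] at hc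
          have h5 : (0 : ℚ) ≤ ms m₁ := ms_nonneg _
          have h6 : (1 : ℚ) / n = 1 := by rw [hc]; norm_num
          rw [h6] at h3
          linarith
        · have hlt : c + 1 < n := by omega
          refine Nat.find_min hex hlt ⟨by omega, ((2 * c + 1) * (c + 1)) ::ₘ (S.erase n).val,
            ?_, ?_, ?_⟩
          · rw [Multiset.card_cons]; exact hce
          · intro i hi
            rcases Multiset.mem_cons.1 hi with rfl | hi
            · positivity
            · exact hpe i hi
          · rw [ms_cons, ms_val]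
            have e1 : (1 : ℚ) / (c + 1 : ℕ) + 1 / ((2 * c + 1) * (c + 1) : ℕ) = 1 / n + 1 / n := by
              rw [hc]; push_cast
              field_simp
              ring
            rw [← add_assoc, e1]; linarith
    · refine ⟨insert n S, ?_, ?_, ?_⟩
      · rw [Finset.card_insert_of_notMem hnS]; omega
      · intro i hi
        rcases Finset.mem_insert.1 hi with rfl | hi
        · exact hn0
        · exact hS2 i hi
      · rw [Finset.sum_insert hnS, hS3]; ring

/-- finiteness of the sets of `k` denominators with given sum -/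
theorem fin_aux : ∀ (k : ℕ) (x : ℚ),
    {S : Finset ℕ | S.card = k ∧ (∀ n ∈ S, 0 < n) ∧ ∑ n ∈ S, (1 : ℚ) / n = x}.Finite := by
  intro k
  induction k with
  | zero =>
    intro x
    refine (Set.finite_singleton (∅ : Finset ℕ)).subset ?_
    rintro S ⟨h, -, -⟩
    exact Finset.card_eq_zero.1 h
  | succ k ih =>
    intro x
    rcases le_or_gt x 0 with hx | hx
    · refine Set.finite_empty.subset ?_
      rintro S ⟨h, h1, h2⟩
      exfalso
      have hne : S.Nonempty := by
        rw [← Finset.card_pos]; omega
      have : 0 < ∑ n ∈ S, (1 : ℚ) / n := Finset.sum_pos (fun n hn => by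
        have := h1 n hn
        positivity) hne
      linarith
    · have hfin : (⋃ n ∈ Finset.range (⌊((k : ℚ) + 1) / x⌋₊ + 1),
          (fun S : Finset ℕ => insert n S) ''
            {S : Finset ℕ | S.card = k ∧ (∀ n ∈ S, 0 < n) ∧ ∑ m ∈ S, (1 : ℚ) / m = x - 1 / n}).Finite := by
        refine Set.Finite.biUnion (Finset.finite_toSet _) fun n _ => (ih _).image _
      refine hfin.subset ?_
      rintro S ⟨h, h1, h2⟩
      have hne : S.Nonempty := by
        rw [← Finset.card_pos]; omega
      set n := S.min' hne with hn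
      have hnS : n ∈ S := S.min'_mem hne
      have hn0 : 0 < n := h1 n hnS
      have hn0' : (0 : ℚ) < n := by exact_mod_cast hn0
      have hle : x ≤ ((k : ℚ) + 1) / n := by
        rw [← h2]
        calc ∑ m ∈ S, (1 : ℚ) / m ≤ ∑ m ∈ S, (1 : ℚ) / n := by
              refine Finset.sum_le_sum fun m hm => ?_
              have : (n : ℚ) ≤ m := by exact_mod_cast S.min'_le m hm
              exact one_div_le_one_div_of_le hn0' this
          _ = ((k : ℚ) + 1) / n := by
              rw [Finset.sum_const, h, nsmul_eq_mul]; push_cast; ring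
      have hle2 : (n : ℚ) ≤ ((k : ℚ) + 1) / x := by
        rw [le_div_iff₀ hx]
        rw [le_div_iff₀ hn0'] at hle
        linarith
      rw [Set.mem_iUnion₂]
      refine ⟨n, ?_, S.erase n, ⟨?_, ?_, ?_⟩, Finset.insert_erase hnS⟩
      · rw [Finset.mem_range, Nat.lt_succ_iff]
        exact Nat.le_floor hle2
      · rw [Finset.card_erase_of_mem hnS]; omega
      · intro m hm; exact h1 m (Finset.mem_of_mem_erase hm)
      · have := Finset.sum_erase_add S (fun n : ℕ => (1 : ℚ) / n) hnS
        rw [h2] at this
        linarith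

theorem fin : S_FIN := fun k => fin_aux k 1

end Pool.Agent.H51.EG.T.TAK
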