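import Pool.Agent.H51.EG.Def

/-! `F k ≤ k ^ (2 ^ k)`. -/

open Finset

namespace Pool.Agent.H51.EG.T.UP

/-- the `k`-sets with reciprocal sum `x` -/
def Sol (k : ℕ) (x : ℚ) : Set (Finset ℕ) :=
  {S | S.card = k ∧ (∀ n ∈ S, 0 < n) ∧ ∑ n ∈ S, (1 : ℚ) / n = x}

lemma bound (k : ℕ) : ∀ (b : ℕ) (x : ℚ), 0 < b → (∃ c : ℤ, x * b = c) →
    (Sol k x).Finite ∧ (Sol k x).ncard ≤ (k * b) ^ (2 ^ k - 1) := by
  induction k with
  | zero =>
    intro b x hb _
    have hsub : Sol 0 x ⊆ {∅} := by
      rintro S ⟨hS, -, -⟩
      rw [Finset.card_eq_zero] at hS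
      exact hS
    refine ⟨(Set.finite_singleton _).subset hsub, ?_⟩
    have := Set.ncard_le_ncard hsub (Set.finite_singleton _)
    simpa using this
  | succ k ih =>
    intro b x hb hx
    rcases le_or_gt x 0 with hx0 | hx0
    · have hempty : Sol (k + 1) x = ∅ := by
        ext S
        simp only [Set.mem_empty_iff_false, iff_false]
        rintro ⟨hS, hpos, hsum⟩
        have hne : S.Nonempty := by rw [← Finset.card_pos, hS]; omega
        have : 0 < ∑ n ∈ S, (1 : ℚ) / n := by
          apply Finset.sum_pos _ hne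
          intro n hn
          have := hpos n hn
          positivity
        rw [hsum] at this
        linarith
      rw [hempty]
      simp
    · obtain ⟨c, hc⟩ := hx
      have hbq : (0 : ℚ) < b := by exact_mod_cast hb
      have hc1 : (1 : ℚ) ≤ x * b := by
        have h1 : (0 : ℚ) < c := by rw [← hc]; positivity
        have h2 : (0 : ℤ) < c := by exact_mod_cast h1
        rw [hc]
        exact_mod_cast h2
      -- the smallest element
      have hsub : Sol (k + 1) x ⊆ ⋃ n ∈ Finset.Icc 1 ((k + 1) * b),
          (fun S => insert n S) '' Sol k (x - 1 / (n : ℚ)) := by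
        rintro S ⟨hS, hpos, hsum⟩
        have hne : S.Nonempty := by rw [← Finset.card_pos, hS]; omega
        have hmem := S.min'_mem hne
        set n := S.min' hne with hn
        have hn0 : 0 < n := hpos n hmem
        have hnq : (0 : ℚ) < n := by exact_mod_cast hn0
        have hle : x ≤ (k + 1) * (1 / (n : ℚ)) := by
          rw [← hsum]
          have : ∑ m ∈ S, (1 : ℚ) / m ≤ ∑ m ∈ S, (1 : ℚ) / n := by
            apply Finset.sum_le_sum
            intro m hm
            have h1 : n ≤ m := S.min'_le m hm
            have h2 : (n : ℚ) ≤ m := by exact_mod_cast h1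
            exact one_div_le_one_div_of_le hnq h2
          refine this.trans (le_of_eq ?_)
          rw [Finset.sum_const, hS]
          push_cast
          simp
        have hnb : n ≤ (k + 1) * b := by
          have h1 : x * n ≤ k + 1 := by
            have := mul_le_mul_of_nonneg_right hle hnq.le
            have e : (k + 1) * (1 / (n : ℚ)) * n = k + 1 := by field_simp
            rwa [e] at this
          have h2 : (n : ℚ) ≤ (k + 1) * b := by
            calc (n : ℚ) ≤ (x * b) * n := by nlinarith
              _ = (x * n) * b := by ring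
              _ ≤ (k + 1) * b := mul_le_mul_of_nonneg_right h1 hbq.le
          exact_mod_cast h2
        rw [Set.mem_iUnion₂]
        refine ⟨n, Finset.mem_Icc.2 ⟨hn0, hnb⟩, S.erase n, ⟨?_, ?_, ?_⟩, Finset.insert_erase hmem⟩
        · rw [Finset.card_erase_of_mem hmem, hS]; rfl
        · intro m hm
          exact hpos m (Finset.mem_of_mem_erase hm)
        · rw [← hsum, ← Finset.add_sum_erase S _ hmem]
          ring
      have hstep : ∀ n ∈ Finset.Icc 1 ((k + 1) * b),
          (Sol k (x - 1 / (n : ℚ))).Finite ∧
          (Sol k (x - 1 / (n : ℚ))).ncard ≤ (((k + 1) * b) ^ 2) ^ (2 ^ k - 1) := by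
        intro n hn
        rw [Finset.mem_Icc] at hn
        have hn0 : 0 < n := hn.1
        have hnq : (n : ℚ) ≠ 0 := by positivity
        obtain ⟨h1, h2⟩ := ih (b * n) (x - 1 / (n : ℚ)) (by positivity) ⟨c * n - b, by
          push_cast
          rw [← hc]
          field_simp⟩
        refine ⟨h1, h2.trans (Nat.pow_le_pow_left ?_ _)⟩
        calc k * (b * n) ≤ (k + 1) * (b * ((k + 1) * b)) := by gcongr; omega; exact hn.2
          _ = ((k + 1) * b) ^ 2 := by ring
      have hfin : (⋃ n ∈ Finset.Icc 1 ((k + 1) * b),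
          (fun S => insert n S) '' Sol k (x - 1 / (n : ℚ))).Finite :=
        Set.Finite.biUnion (Finset.finite_toSet _) fun n hn => ((hstep n hn).1).image _
      refine ⟨hfin.subset hsub, ?_⟩
      calc (Sol (k + 1) x).ncard
          ≤ (⋃ n ∈ Finset.Icc 1 ((k + 1) * b),
            (fun S => insert n S) '' Sol k (x - 1 / (n : ℚ))).ncard :=
            Set.ncard_le_ncard hsub hfin
        _ ≤ ∑ n ∈ Finset.Icc 1 ((k + 1) * b),
            ((fun S => insert n S) '' Sol k (x - 1 / (n : ℚ))).ncard :=
            Finset.set_ncard_biUnion_le _ _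
        _ ≤ ∑ n ∈ Finset.Icc 1 ((k + 1) * b), (((k + 1) * b) ^ 2) ^ (2 ^ k - 1) := by
            apply Finset.sum_le_sum
            intro n hn
            exact (Set.ncard_image_le (hstep n hn).1).trans (hstep n hn).2
        _ = ((k + 1) * b) * (((k + 1) * b) ^ 2) ^ (2 ^ k - 1) := by
            rw [Finset.sum_const, Nat.card_Icc]
            simp
        _ = ((k + 1) * b) ^ (2 ^ (k + 1) - 1) := by
            rw [← pow_mul, ← pow_succ']
            congr 1
            have : 1 ≤ 2 ^ k := Nat.one_le_two_pow
            rw [pow_succ]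
            omega

theorem main : S_UP := by
  intro k hk
  have h := (bound k 1 1 one_pos ⟨1, by norm_num⟩).2
  rw [mul_one] at h
  exact h.trans (Nat.pow_le_pow_right hk (Nat.sub_le _ _))

end Pool.Agent.H51.EG.T.UP
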